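import Pool.Agent.Helper2.DO.D18d

/-!
# D18: `II l` is a level cochain and `d(II l) = - II (l ∘ ∂)`
-/

namespace Pool.Agent.Helper67.DO

open scoped BigOperators Real
open MeasureTheory Filter Topology

noncomputable section

theorem d18_pullF {E : Type*} [TopologicalSpace E] {S : Set E} {n : ℕ} {ρ s M K : ℝ} (hI : Inv n ρ s M)
    {P V : E → ℝ → ℝ} (hP : ∀ u ∈ S, P u ∈ AA n) (hV : ∀ u ∈ S, V u ∈ VV n K)
    (hPc : ∀ u0 ∈ S, ∀ ε : ℝ, 0 < ε → ∀ᶠ u in 𝓝[S] u0, ∀ x, |P u x - P u0 x| ≤ ε)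
    (hVc : ∀ u0 ∈ S, ∀ ε : ℝ, 0 < ε → ∀ᶠ u in 𝓝[S] u0, ∀ x, |V u x - V u0 x| ≤ ε) :
    D18F S s (fun u => pull ρ (P u) (V u)) where
  hol u hu := (pull_prop hI (hP u hu) (hV u hu)).1
  per u hu := (pull_prop hI (hP u hu) (hV u hu)).2.1
  bd := ⟨M * K, fun u hu => (pull_prop hI (hP u hu) (hV u hu)).2.2⟩
  uc u0 hu0 ε hε := by
    obtain ⟨δ, hδ, HS⟩ := hI.stab K ε hε
    filter_upwards [hPc u0 hu0 δ hδ, hVc u0 hu0 δ hδ, self_mem_nhdsWithin] with u h1 h2 hu w hw
    exact (HS _ (hP u hu) _ (hP u0 hu0) _ (hV u hu) _ (hV u0 hu0) h1 h2).1 w hw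

theorem d18_dd_unif {n q : ℕ} {y : Sq} (hy : ∀ k, y k ∈ AA n) {K : ℝ}
    (hK : ∀ u ∈ Set.Icc (0 : Fin q → ℝ) 1, ∀ a : Fin q, dPhi q y a u ∈ VV n K) (a b : Fin q) {u0 : Fin q → ℝ}
    (hu0 : u0 ∈ Set.Icc (0 : Fin q → ℝ) 1) (ε : ℝ) (hε : 0 < ε) :
    ∀ᶠ u in 𝓝[Set.Icc (0 : Fin q → ℝ) 1] u0, ∀ x, |d18dd y a b u x - d18dd y a b u0 x| ≤ ε := by
  have h : ∀ t ∈ Set.Icc (0 : ℝ) 1, ∀ᶠ u in 𝓝[Set.Icc (0 : Fin q → ℝ) 1] u0,
      ∀ x, |dPhi q y b (Function.update u a t) x - dPhi q y b (Function.update u0 a t) x| ≤ ε / 2 := by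
    intro t ht
    have h1 := dPhi_unif hy (K := K) (a := b) (fun u hu => hK u hu b) (d18_upd hu0 a ht) (ε / 2) (by linarith)
    have h2 : Tendsto (fun u : Fin q → ℝ => Function.update u a t) (𝓝[Set.Icc (0 : Fin q → ℝ) 1] u0)
        (𝓝[Set.Icc (0 : Fin q → ℝ) 1] (Function.update u0 a t)) := by
      refine tendsto_nhdsWithin_iff.2 ⟨?_, ?_⟩
      · have hc : Continuous fun u : Fin q → ℝ => Function.update u a t := continuous_id.update a continuous_const
        exact (hc.tendsto u0).mono_left nhdsWithin_le_nhds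
      · filter_upwards [self_mem_nhdsWithin] with u hu
        exact d18_upd hu a ht
    exact h2.eventually h1
  filter_upwards [h 1 ⟨zero_le_one, le_rfl⟩, h 0 ⟨le_rfl, zero_le_one⟩] with u h1 h0 x
  have a1 := h1 x
  have a0 := h0 x
  unfold d18dd
  rw [abs_le] at a1 a0 ⊢
  constructor <;> linarith [a1.1, a1.2, a0.1, a0.2]

theorem d18_four_zero (z : ℂ) : four (fun _ => 0) z = 0 := by
  unfold four fco
  simp

theorem d18_pull_zero (ρ : ℝ) (Φ : ℝ → ℝ) (w : ℂ) : pull ρ Φ (fun _ => 0) w = 0 := d18_four_zero _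

theorem d18_WW_zero_row {m : ℕ} (V : Fin m → ℂ → ℂ) (k : Fin m) (h : V k = fun _ => 0) (z : Fin m → ℂ) :
    WW V z = 0 := by
  unfold WW
  exact Matrix.det_eq_zero_of_row_eq_zero k fun j => by simp [h]

theorem d18_main {n q : ℕ} {ρ s M s' : ℝ} (h2 : ST_D2) (h10 : ST_D10) (h12 : ST_E12) (hn : 1 ≤ n)
    (hI : Inv n ρ s M) (hs' : s' < s) {l : ((Fin (q + 1) → ℂ) → ℂ) → ℂ} (hl : Fnl (q + 1) (St s') l)
    {y : Sq} (hy : ∀ k, y k ∈ AA n) :
    dlt (q + 1) (II ρ (q + 1) l) y = - II ρ (q + 2) (fun F => l (dd (q + 1) F)) y := by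
  classical
  obtain ⟨K, hK⟩ := h2.2.2.2.2.2.2.2 n hn (q + 2) y hy
  have hΦ := h2.2.2.2.2.2.2.1 n hn (q + 2) y hy
  set cube : Set (Fin (q + 2) → ℝ) := Set.Icc (0 : Fin (q + 2) → ℝ) 1 with hcube
  have m0 : (0 : ℝ) ∈ Set.Icc (0 : ℝ) 1 := ⟨le_rfl, zero_le_one⟩
  have m1 : (1 : ℝ) ∈ Set.Icc (0 : ℝ) 1 := ⟨zero_le_one, le_rfl⟩
  -- the fields
  set X : Fin (q + 2) → (Fin (q + 2) → ℝ) → ℂ → ℂ := fun b u => pull ρ (Phi (q + 2) y u) (dPhi (q + 2) y b u) with hX
  set Z : Fin (q + 2) → Fin (q + 2) → (Fin (q + 2) → ℝ) → ℂ → ℂ :=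
    fun a b u => pull ρ (Phi (q + 2) y u) (d18dd y a b u) with hZ
  set Y : Fin (q + 2) → Fin (q + 2) → (Fin (q + 2) → ℝ) → ℂ → ℂ :=
    fun a b u w => Z a b u w - X a u w * deriv (X b u) w with hY
  have hXF : ∀ b, D18F cube s (X b) := fun b => d18_pullF hI hΦ (fun u hu => hK u hu b)
    (fun u0 hu0 ε hε => Phi_unif h2 hn hy hu0 ε hε) (fun u0 hu0 ε hε => dPhi_unif hy (fun u hu => hK u hu b) hu0 ε hε)
  have hZF : ∀ a b, D18F cube s (Z a b) := fun a b => d18_pullF (K := 2 * K) hI hΦ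
    (fun u hu => d18_VV_subVV h2 hn (hK _ (d18_upd hu a m1) b) (hK _ (d18_upd hu a m0) b))
    (fun u0 hu0 ε hε => Phi_unif h2 hn hy hu0 ε hε) (fun u0 hu0 ε hε => d18_dd_unif hy hK a b hu0 ε hε)
  have hXF' : ∀ b, D18F cube s' (X b) := fun b => (hXF b).mono hs'.le
  have hYF : ∀ a b, D18F cube s' (Y a b) := fun a b =>
    ((hZF a b).mono hs'.le).sub ((hXF' a).mul ((hXF b).deriv hs'))
  -- the primitives and their derivatives
  set G : Fin (q + 2) → (Fin (q + 2) → ℝ) → ℂ := fun a u => l (WW fun c => X (a.succAbove c) u) with hG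
  set F : (a : Fin (q + 2)) → Fin (q + 1) → Fin (q + 1) → (Fin (q + 2) → ℝ) → ℂ → ℂ :=
    fun a c c' => if c' = c then Y a (a.succAbove c) else X (a.succAbove c') with hF
  have hFF : ∀ a c c', D18F cube s' (F a c c') := by
    intro a c c'
    simp only [hF]
    split_ifs
    · exact hYF _ _
    · exact hXF' _
  have hFe : ∀ a c u, (fun c' => F a c c' u) =
      Function.update (fun c' => X (a.succAbove c') u) c (Y a (a.succAbove c) u) := by
    intro a c u
    funext c'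
    by_cases h : c' = c
    · subst h
      simp [hF]
    · rw [Function.update_of_ne h]
      simp [hF, h]
  set D : Fin (q + 2) → (Fin (q + 2) → ℝ) → ℂ := fun a u => ∑ c, l (WW fun c' => F a c c' u) with hD
  have hGc : ∀ a, ContinuousOn (G a) cube := fun a => d18_l_cont (fun c => hXF' (a.succAbove c)) hl
  have hDc : ∀ a, ContinuousOn (D a) cube := fun a =>
    continuousOn_finsetSum Finset.univ fun c _ => d18_l_cont (fun c' => hFF a c c') hl
  have hder : ∀ a, ∀ u ∈ cube, ∀ t ∈ Set.Ioo (0 : ℝ) 1,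
      HasDerivAt (fun t => G a (Function.update u a t)) (D a (Function.update u a t)) t := by
    intro a u hu t ht
    have h := d18_l_deriv (V := fun c => X (a.succAbove c)) (V' := fun c => Y a (a.succAbove c))
      (fun c => hXF' _) (fun c => hYF _ _) hl hu a (fun c t ht w hw => ?_) ht
    · refine h.congr_deriv ?_
      simp only [hD]
      exact Finset.sum_congr rfl fun c _ => by rw [hFe]
    · have := d18_hasDeriv h2 hn hI hy hK hu a (a.succAbove c) ht (St_mono hs'.le hw)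
      refine this.congr_deriv ?_
      simp only [hY, hZ, hX, d18dd_update]
  have hst : ∀ a : Fin (q + 2), cub (q + 2) (D a) =
      cub (q + 1) (fun u' => G a (a.insertNth 1 u')) - cub (q + 1) (fun u' => G a (a.insertNth 0 u')) :=
    fun a => d18_stokes a (hGc a) (hDc a) (hder a)
  -- faces
  have hface1 : ∀ a : Fin (q + 2), cub (q + 1) (fun u' => G a (a.insertNth 1 u')) = II ρ (q + 1) l (rm a y) := by
    intro a
    unfold II
    congr 1
    funext u'
    obtain ⟨f1, -, -, f4, -⟩ := h10 (q + 1) y u'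
    simp only [hG, hX]
    congr 2
    funext c
    have g1 := f1 a
    have g4 := f4 a c
    rw [g1, g4]
  have hface0l : cub (q + 1) (fun u' => G (Fin.last (q + 1)) ((Fin.last (q + 1)).insertNth 0 u'))
      = II ρ (q + 1) l (rm (q + 2) y) := by
    unfold II
    congr 1
    funext u'
    obtain ⟨-, f2, -, -, f5⟩ := h10 (q + 1) y u'
    simp only [hG, hX]
    congr 2
    funext c
    have g5 := f5 c
    rw [f2, g5]
  have hface0 : ∀ a : Fin (q + 2), a ≠ Fin.last (q + 1) → cub (q + 1) (fun u' => G a (a.insertNth 0 u')) = 0 := by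
    intro a ha
    have hz : ∀ u' : Fin (q + 1) → ℝ, G a (a.insertNth 0 u') = 0 := by
      intro u'
      obtain ⟨-, -, f3, -, -⟩ := h10 (q + 1) y u'
      obtain ⟨k, hk⟩ := Fin.exists_succAbove_eq ha.symm
      have hlt : a < Fin.last (q + 1) := Fin.lt_last_iff_ne_last.2 ha
      have e1 : (fun c => X (a.succAbove c) (a.insertNth 0 u')) k = fun _ => 0 := by
        funext w
        simp only [hX]
        rw [hk, f3 a (Fin.last (q + 1)) hlt]
        exact d18_pull_zero _ _ _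
      have e2 : (WW fun c => X (a.succAbove c) (a.insertNth 0 u')) = fun _ => 0 := by
        funext z
        exact d18_WW_zero_row _ k e1 z
      simp only [hG]
      rw [e2, hl.zero']
    unfold cub
    simp only [hz, integral_zero]
  -- the boundary
  have hdlt : dlt (q + 1) (II ρ (q + 1) l) y = ∑ a : Fin (q + 2), (-1 : ℂ) ^ (a : ℕ) * cub (q + 2) (D a) := by
    unfold dlt
    rw [Finset.sum_range_succ, Finset.sum_range]
    have e1 : ∀ a : Fin (q + 2), (-1 : ℂ) ^ (a : ℕ) * cub (q + 2) (D a) =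
        (-1 : ℂ) ^ (a : ℕ) * II ρ (q + 1) l (rm a y)
          + if a = Fin.last (q + 1) then (-1 : ℂ) ^ (q + 2) * II ρ (q + 1) l (rm (q + 2) y) else 0 := by
      intro a
      rw [hst a, hface1 a]
      by_cases ha : a = Fin.last (q + 1)
      · subst ha
        rw [hface0l, if_pos rfl, Fin.val_last]
        ring
      · rw [hface0 a ha, if_neg ha]
        ring
    rw [Finset.sum_congr rfl fun a _ => e1 a, Finset.sum_add_distrib, Finset.sum_ite_eq' Finset.univ]
    simp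
  -- the integrand
  have hint : ∀ u ∈ cube, ∑ a : Fin (q + 2), (-1 : ℂ) ^ (a : ℕ) * D a u = - l (dd (q + 1) (WW fun a => X a u)) := by
    intro u hu
    have hb : ∀ a c, BO (q + 1) (St s') (WW fun c' => F a c c' u) := fun a c => d18_WW_BO (hFF a c) hu
    have e1 : l (fun z => ∑ a : Fin (q + 2), (-1 : ℂ) ^ (a : ℕ) * ∑ c, WW (fun c' => F a c c' u) z)
        = ∑ a : Fin (q + 2), (-1 : ℂ) ^ (a : ℕ) * D a u := by
      rw [hl.sum' Finset.univ (fun (a : Fin (q + 2)) z => (-1 : ℂ) ^ (a : ℕ) * ∑ c, WW (fun c' => F a c c' u) z)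
        fun a _ => (BO.sum Finset.univ (fun c => WW fun c' => F a c c' u) fun c _ => hb a c).smul _]
      refine Finset.sum_congr rfl fun a _ => ?_
      rw [hl.smul _ (fun z => ∑ c, WW (fun c' => F a c c' u) z)
        (BO.sum Finset.univ (fun c => WW fun c' => F a c c' u) fun c _ => hb a c),
        hl.sum' Finset.univ (fun c => WW fun c' => F a c c' u) fun c _ => hb a c]
    have hB1 : BO (q + 1) (St s') (fun z => ∑ a : Fin (q + 2), (-1 : ℂ) ^ (a : ℕ) * ∑ c, WW (fun c' => F a c c' u) z) :=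
      BO.sum Finset.univ (fun (a : Fin (q + 2)) z => (-1 : ℂ) ^ (a : ℕ) * ∑ c, WW (fun c' => F a c c' u) z)
        fun a _ => (BO.sum Finset.univ (fun c => WW fun c' => F a c c' u) fun c _ => hb a c).smul _
    have e2 : ∀ z ∈ PU (q + 1) (St s'), -1 * dd (q + 1) (WW fun a => X a u) z =
        ∑ a : Fin (q + 2), (-1 : ℂ) ^ (a : ℕ) * ∑ c, WW (fun c' => F a c c' u) z := by
      intro z hz
      have h3 := h12 q (St s) (isOpen_St s) (fun a => X a u) (fun a => (hXF a).hol u hu) z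
        (PU_mono (St_mono hs'.le) hz)
      have h4 := d18_alg (fun a => X a u) (fun a b => Z a b u)
        (fun a b => by simp only [hZ]; rw [d18dd_symm]) z
      rw [h3]
      have h5 : ∑ a : Fin (q + 2), (-1 : ℂ) ^ (a : ℕ) * ∑ c, WW (fun c' => F a c c' u) z =
          ∑ a : Fin (q + 2), (-1 : ℂ) ^ (a : ℕ) * ∑ c : Fin (q + 1), WW (Function.update
            (fun c' => X (a.succAbove c') u) c (fun w => Z a (a.succAbove c) u w - X a u w *
              deriv (X (a.succAbove c) u) w)) z := by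
        refine Finset.sum_congr rfl fun a _ => ?_
        congr 1
        refine Finset.sum_congr rfl fun c _ => ?_
        rw [hFe]
      rw [h5, h4]
      ring
    have hB2 : BO (q + 1) (St s') (fun z => -1 * dd (q + 1) (WW fun a => X a u) z) := hB1.congr e2 d18_St_one
    have hB3 : BO (q + 1) (St s') (dd (q + 1) (WW fun a => X a u)) := by
      have := hB2.smul (-1)
      have e : (fun z => -1 * (-1 * dd (q + 1) (WW fun a => X a u) z)) = dd (q + 1) (WW fun a => X a u) := by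
        funext z
        ring
      rwa [e] at this
    rw [← e1, ← hl.ext' hB2 hB1 e2, hl.smul _ _ hB3]
    ring
  -- assemble
  rw [hdlt]
  have hDi : ∀ a, IntegrableOn (D a) cube volume := fun a => (hDc a).integrableOn_compact isCompact_Icc
  have e3 : ∑ a : Fin (q + 2), (-1 : ℂ) ^ (a : ℕ) * cub (q + 2) (D a)
      = ∫ u in cube, ∑ a : Fin (q + 2), (-1 : ℂ) ^ (a : ℕ) * D a u := by
    rw [integral_finsetSum]
    · refine Finset.sum_congr rfl fun a _ => ?_
      unfold cub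
      rw [integral_const_mul]
    · intro a _
      exact (hDi a).const_mul _
  rw [e3]
  unfold II cub
  rw [← integral_neg]
  exact setIntegral_congr_fun measurableSet_Icc fun u hu => hint u hu

/-- D18 -/
theorem st_D18 (h2 : ST_D2) (h10 : ST_D10) (h12 : ST_E12) : ST_D18 := by
  intro n q ρ s M s' hn hI _ hs' l hl hr hi
  exact ⟨d18_LC h2 hn hI hs' hl hr hi, fun y hy => d18_main h2 h10 h12 hn hI hs' hl hy⟩

end

end Pool.Agent.Helper67.DO
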