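import Pool.Agent.Helper67.DO.BaseD2

/-!
# D18, first part: `II l` is a level cochain
-/

namespace Pool.Agent.Helper67.DO

open scoped BigOperators Real
open MeasureTheory Filter Topology

noncomputable section

/-! ### identity theorem on strips -/

theorem d18_St_pre (r : ℝ) : IsPreconnected (St r) := by
  have h : St r = Complex.im ⁻¹' (Set.Ioo (-r) r) := by
    ext z
    simp [St, abs_lt]
  rw [h]
  exact ((convex_Ioo (-r) r).is_linear_preimage Complex.imLm.isLinear).isPreconnected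

theorem d18_id {r : ℝ} (hr : 0 < r) {f g : ℂ → ℂ} (hf : DifferentiableOn ℂ f (St r))
    (hg : DifferentiableOn ℂ g (St r)) (h : ∀ x : ℝ, f x = g x) : ∀ z ∈ St r, f z = g z := by
  have hf' := hf.analyticOnNhd (isOpen_St r)
  have hg' := hg.analyticOnNhd (isOpen_St r)
  have h0 : (0 : ℂ) ∈ St r := by simpa [St] using hr
  refine hf'.eqOn_of_preconnected_of_frequently_eq hg' (d18_St_pre r) h0 ?_
  have ht : Tendsto (fun x : ℝ => (x : ℂ)) (𝓝[≠] (0 : ℝ)) (𝓝[≠] (0 : ℂ)) := by
    refine tendsto_nhdsWithin_iff.2 ⟨?_, ?_⟩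
    · have : Tendsto (fun x : ℝ => (x : ℂ)) (𝓝 (0 : ℝ)) (𝓝 ((0 : ℝ) : ℂ)) := Complex.continuous_ofReal.tendsto 0
      rw [Complex.ofReal_zero] at this
      exact this.mono_left nhdsWithin_le_nhds
    · filter_upwards [self_mem_nhdsWithin] with x hx
      simpa using hx
  exact ht.frequently (Filter.Eventually.frequently (Filter.Eventually.of_forall fun x => h x))

theorem d18_St_add {r : ℝ} {z : ℂ} (hz : z ∈ St r) (c : ℝ) : z + (c : ℂ) ∈ St r := by
  have : (z + (c : ℂ)).im = z.im := by simp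
  show |(z + (c : ℂ)).im| < r
  rw [this]
  exact hz

theorem d18_St_one {r : ℝ} : ∀ z ∈ St r, z + 1 ∈ St r := by
  intro z hz
  have := d18_St_add hz 1
  simpa using this

theorem d18_real_mem {r : ℝ} (hr : 0 < r) (x : ℝ) : (x : ℂ) ∈ St r := by
  simpa [St] using hr

/-! ### pulled back fields -/

theorem d18_pull_real {n : ℕ} {ρ s M K : ℝ} (hI : Inv n ρ s M) {Φ v : ℝ → ℝ} (hΦ : Φ ∈ AA n) (hv : v ∈ VV n K)
    (x : ℝ) : pull ρ Φ v (Φ x : ℂ) = (v x : ℂ) := by
  unfold pull
  rw [hI.invreal Φ hΦ x, hI.vreal K v hv x]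

theorem d18_pull_comp {n : ℕ} {ρ s M K K' : ℝ} (hI : Inv n ρ s M) {Φ v g : ℝ → ℝ} (hΦ : Φ ∈ AA n) (hv : v ∈ VV n K)
    (hΦg : (fun x => Φ (g x)) ∈ AA n) (hvg : (fun x => v (g x)) ∈ VV n K') :
    ∀ w ∈ St s, pull ρ (fun x => Φ (g x)) (fun x => v (g x)) w = pull ρ Φ v w := by
  refine d18_id hI.pos.1 (pull_prop hI hΦg hvg).1 (pull_prop hI hΦ hv).1 ?_
  intro x
  obtain ⟨t, ht⟩ := hΦg.1.surj x
  have e1 := d18_pull_real hI hΦg hvg t
  have e2 := d18_pull_real hI hΦ hv (g t)
  simp only at ht e1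
  rw [← ht, e1, e2]

theorem d18_pull_tr {n : ℕ} {ρ s M K K' : ℝ} (hI : Inv n ρ s M) {Φ v : ℝ → ℝ} {c c' : ℝ} (hΦ : Φ ∈ AA n)
    (hv : v ∈ VV n K) (hΦc : (fun x => Φ x + c) ∈ AA n) (hvc : (fun x => v x + c') ∈ VV n K') :
    ∀ w ∈ St s, pull ρ (fun x => Φ x + c) (fun x => v x + c') w = pull ρ Φ v (w + ((-c : ℝ) : ℂ)) + c' := by
  have h1 : DifferentiableOn ℂ (fun w : ℂ => pull ρ Φ v (w + ((-c : ℝ) : ℂ)) + c') (St s) := by
    refine DifferentiableOn.add_const _ ?_
    refine (pull_prop hI hΦ hv).1.comp (f := fun w : ℂ => w + ((-c : ℝ) : ℂ))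
      (differentiable_id.add_const _).differentiableOn ?_
    exact fun z hz => d18_St_add hz _
  refine d18_id hI.pos.1 (pull_prop hI hΦc hvc).1 h1 ?_
  intro x
  obtain ⟨t, ht⟩ := hΦ.1.surj (x - c)
  have e1 := d18_pull_real hI hΦc hvc t
  have e2 := d18_pull_real hI hΦ hv t
  have hx : x = Φ t + c := by linarith
  have hx2 : ((x : ℝ) : ℂ) + ((-c : ℝ) : ℂ) = ((Φ t : ℝ) : ℂ) := by
    rw [hx]
    push_cast
    ring
  rw [hx2, e2]
  rw [hx]
  rw [e1]
  push_cast
  ring

/-! ### differences of elements of a level -/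

theorem d18_VV_sub {n : ℕ} (h2 : ST_D2) (hn : 1 ≤ n) {K : ℝ} (hK : 1 ≤ K) {Φ Ψ : ℝ → ℝ} (hΦ : Φ ∈ AA n)
    (hΨ : Ψ ∈ AA n) (h : ∀ x, |Φ x - Ψ x| ≤ K) : (fun x => Φ x - Ψ x) ∈ VV n K := by
  have hK0 : (0 : ℝ) < K := by linarith
  refine ⟨⟨_, h2.2.2.1 n hn Ψ hΨ Φ hΦ (1 / K) (by positivity) (by rw [div_le_one hK0]; exact hK), Ψ, hΨ, ?_⟩, h⟩
  funext x
  field_simp
  ring

theorem d18_VV_mono {n : ℕ} (h2 : ST_D2) (hn : 1 ≤ n) {K K' : ℝ} (hK : K ≤ K') {v : ℝ → ℝ} (hv : v ∈ VV n K) :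
    v ∈ VV n K' := by
  obtain ⟨⟨Φ, hΦ, Ψ, hΨ, rfl⟩, hb⟩ := id hv
  have hK0 : 0 ≤ K := VV_nonneg hv
  rcases eq_or_lt_of_le (hK0.trans hK) with h0 | h0
  · have hk : K = 0 := le_antisymm (by linarith) hK0
    refine ⟨⟨Φ, hΦ, Ψ, hΨ, ?_⟩, ?_⟩
    · rw [← h0, hk]
    · intro x
      exact (hb x).trans hK
  · refine ⟨⟨_, h2.2.2.1 n hn Ψ hΨ Φ hΦ (K / K') (by positivity) (by rw [div_le_one h0]; exact hK), Ψ, hΨ, ?_⟩,
      fun x => (hb x).trans hK⟩
    funext x
    field_simp
    ring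

theorem d18_VV_subVV {n : ℕ} (h2 : ST_D2) (hn : 1 ≤ n) {K : ℝ} {v w : ℝ → ℝ} (hv : v ∈ VV n K) (hw : w ∈ VV n K) :
    (fun x => v x - w x) ∈ VV n (2 * K) := by
  obtain ⟨⟨Φ, hΦ, Ψ, hΨ, rfl⟩, hb⟩ := id hv
  obtain ⟨⟨Φ', hΦ', Ψ', hΨ', rfl⟩, hb'⟩ := id hw
  refine ⟨⟨_, h2.2.2.1 n hn Φ hΦ Ψ' hΨ' (1 / 2) (by norm_num) (by norm_num), _,
    h2.2.2.1 n hn Ψ hΨ Φ' hΦ' (1 / 2) (by norm_num) (by norm_num), ?_⟩, ?_⟩
  · funext x
    ring
  · intro x
    calc |K * (Φ x - Ψ x) - K * (Φ' x - Ψ' x)| ≤ |K * (Φ x - Ψ x)| + |K * (Φ' x - Ψ' x)| := abs_sub _ _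
      _ ≤ K + K := add_le_add (hb x) (hb' x)
      _ = 2 * K := by ring

/-- adding a constant -/
theorem d18_VV_const {n : ℕ} (h2 : ST_D2) (hn : 1 ≤ n) {K : ℝ} {v : ℝ → ℝ} (hv : v ∈ VV n K) (c : ℝ) :
    (fun x => v x + c) ∈ VV n (K + |c| + 1) := by
  have hK0 : 0 ≤ K := VV_nonneg hv
  have hK' : K ≤ K + |c| + 1 := by linarith [abs_nonneg c]
  have hpos : 0 < K + |c| + 1 := by linarith [abs_nonneg c]
  obtain ⟨⟨Φ, hΦ, Ψ, hΨ, hv'⟩, hb⟩ := d18_VV_mono h2 hn hK' hv
  refine ⟨⟨_, (h2.2.2.2.2.1 n hn Φ hΦ (c / (K + |c| + 1))).1, Ψ, hΨ, ?_⟩, ?_⟩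
  · funext x
    have e := congrFun hv' x
    rw [e]
    field_simp
    ring
  · intro x
    calc |v x + c| ≤ |v x| + |c| := abs_add_le _ _
      _ ≤ K + |c| := by linarith [hv.2 x]
      _ ≤ K + |c| + 1 := by linarith

/-! ### real translations and relative functionals -/

theorem d18_WW_update {q : ℕ} (X : Fin (q + 1) → ℂ → ℂ) (a : Fin (q + 1)) (c : ℂ) (z : Fin (q + 1) → ℂ) :
    WW (Function.update X a (fun w => X a w + c)) z
      = WW X z + (c * (-1 : ℂ) ^ (a : ℕ)) * wd (fun _ => 1) q (WW (a.removeNth X)) z := by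
  have e1 : (Matrix.of fun i j => (Function.update X a (fun w => X a w + c)) i (z j))
      = Matrix.updateRow (Matrix.of fun i j => X i (z j)) a ((Matrix.of fun i j => X i (z j)) a + c • (fun _ => (1 : ℂ))) := by
    ext i j
    by_cases hi : i = a
    · subst hi
      simp
    · rw [Matrix.updateRow_ne hi]
      simp [Function.update_of_ne hi]
  have e2 : Matrix.det (Matrix.updateRow (Matrix.of fun i j => X i (z j)) a (fun _ => (1 : ℂ)))
      = (-1 : ℂ) ^ (a : ℕ) * wd (fun _ => 1) q (WW (a.removeNth X)) z := by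
    rw [Matrix.det_succ_row _ a]
    unfold wd
    rw [Finset.mul_sum]
    refine Finset.sum_congr rfl fun j _ => ?_
    have e3 : (Matrix.updateRow (Matrix.of fun i j => X i (z j)) a (fun _ => (1 : ℂ))).submatrix a.succAbove j.succAbove
        = Matrix.of fun i k => (a.removeNth X) i ((j.removeNth z) k) := by
      ext i k
      simp [Matrix.submatrix_apply, Fin.removeNth]
    rw [e3]
    unfold WW
    rw [Matrix.updateRow_self, pow_add]
    ring
  unfold WW
  rw [e1, Matrix.det_updateRow_add, Matrix.det_updateRow_smul, Matrix.updateRow_eq_self, e2]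
  unfold WW
  ring

theorem d18_l_tr {q : ℕ} {s s' R : ℝ} (hss : s' < s) {l : ((Fin (q + 1) → ℂ) → ℂ) → ℂ}
    (hl : Fnl (q + 1) (St s') l) (hi : Io q s' l) {X : Fin (q + 1) → ℂ → ℂ} (hX : ∀ i, DifferentiableOn ℂ (X i) (St s))
    (hp : ∀ i, ∀ z ∈ St s, X i (z + 1) = X i z) (hb : ∀ i, ∀ z ∈ St s, ‖X i z‖ ≤ R) (c : Fin (q + 1) → ℂ) :
    l (WW fun a w => X a w + c a) = l (WW X) := by
  classical
  -- the family with constants added on a set
  set V : Finset (Fin (q + 1)) → Fin (q + 1) → ℂ → ℂ := fun S a w => X a w + if a ∈ S then c a else 0 with hV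
  have hVd : ∀ S i, DifferentiableOn ℂ (V S i) (St s) := fun S i => (hX i).add_const _
  have hVp : ∀ S i, ∀ z ∈ St s, V S i (z + 1) = V S i z := by
    intro S i z hz
    simp only [hV]
    rw [hp i z hz]
  have hVb : ∀ S i, ∀ z ∈ St s, ‖V S i z‖ ≤ R + ∑ a, ‖c a‖ := by
    intro S i z hz
    simp only [hV]
    refine (norm_add_le _ _).trans (add_le_add (hb i z hz) ?_)
    split_ifs
    · exact Finset.single_le_sum (f := fun a => ‖c a‖) (fun a _ => norm_nonneg _) (Finset.mem_univ i)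
    · rw [norm_zero]
      exact Finset.sum_nonneg fun a _ => norm_nonneg _
  have hsub : St s' ⊆ St s := St_mono hss.le
  have hBO : ∀ S, BO (q + 1) (St s) (WW (V S)) := fun S => WW_BO (hVd S) (hVp S) (hVb S)
  have key : ∀ S, l (WW (V S)) = l (WW X) := by
    intro S
    induction S using Finset.induction_on with
    | empty =>
      congr 1
      simp [hV]
    | insert a S ha ih =>
      have e1 : V (insert a S) = Function.update (V S) a (fun w => V S a w + c a) := by
        funext b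
        by_cases hb : b = a
        · subst hb
          rw [Function.update_self]
          funext w
          simp [hV, ha]
        · rw [Function.update_of_ne hb]
          funext w
          simp [hV, hb]
      have e2 : WW (V (insert a S)) = fun z => WW (V S) z + (c a * (-1 : ℂ) ^ (a : ℕ)) *
          wd (fun _ => 1) q (WW (a.removeNth (V S))) z := by
        funext z
        rw [e1]
        exact d18_WW_update (V S) a (c a) z
      have hB1 : BO q (St s) (WW (a.removeNth (V S))) :=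
        WW_BO (fun i => hVd S _) (fun i => hVp S _) (fun i => hVb S _)
      -- `wd 1 q F` is in `BO`
      have e4 : (fun z => (c a * (-1 : ℂ) ^ (a : ℕ)) * wd (fun _ => 1) q (WW (a.removeNth (V S))) z)
          = fun z => WW (V (insert a S)) z - WW (V S) z := by
        funext z
        rw [e2]
        ring
      have hB2 : BO (q + 1) (St s) (wd (fun _ => 1) q (WW (a.removeNth (V S)))) := by
        -- take the constant `1`
        have e5 : (wd (fun _ => 1) q (WW (a.removeNth (V S)))) = fun z => (-1 : ℂ) ^ (a : ℕ) *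
            (WW (Function.update (V S) a (fun w => V S a w + 1)) z - WW (V S) z) := by
          funext z
          rw [d18_WW_update (V S) a 1 z]
          have : (-1 : ℂ) ^ (a : ℕ) * (-1 : ℂ) ^ (a : ℕ) = 1 := by
            rw [← pow_add, ← two_mul, pow_mul]
            simp
          linear_combination (-(wd (fun _ => 1) q (WW (a.removeNth (V S))) z)) * this
        rw [e5]
        refine (BO.sub ?_ (hBO S)).smul _
        refine WW_BO (R := R + ∑ a, ‖c a‖ + 1) ?_ ?_ ?_
        · intro i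
          by_cases hi' : i = a
          · subst hi'
            rw [Function.update_self]
            exact (hVd S i).add_const _
          · rw [Function.update_of_ne hi']
            exact hVd S i
        · intro i z hz
          by_cases hi' : i = a
          · subst hi'
            rw [Function.update_self]
            rw [hVp S i z hz]
          · rw [Function.update_of_ne hi']
            exact hVp S i z hz
        · intro i z hz
          by_cases hi' : i = a
          · subst hi'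
            rw [Function.update_self]
            refine (norm_add_le _ _).trans ?_
            rw [norm_one]
            linarith [hVb S i z hz]
          · rw [Function.update_of_ne hi']
            linarith [hVb S i z hz]
      rw [e2, hl.add _ _ ((hBO S).mono hsub) ((hB2.smul _).mono hsub), hl.smul _ _ (hB2.mono hsub),
        hi s hss _ hB1, mul_zero, add_zero, ih]
  have := key Finset.univ
  rw [← this]
  congr 1
  simp [hV]

theorem d18_l_rel {q : ℕ} {s s' R : ℝ} (hss : s' < s) {l : ((Fin (q + 1) → ℂ) → ℂ) → ℂ}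
    (hl : Fnl (q + 1) (St s') l) (hr : Rot (q + 1) s' l) (hi : Io q s' l) {X : Fin (q + 1) → ℂ → ℂ}
    (hX : ∀ i, DifferentiableOn ℂ (X i) (St s))
    (hp : ∀ i, ∀ z ∈ St s, X i (z + 1) = X i z) (hb : ∀ i, ∀ z ∈ St s, ‖X i z‖ ≤ R) (c : Fin (q + 1) → ℂ) (t : ℝ) :
    l (WW fun a w => X a (w + (t : ℂ)) + c a) = l (WW X) := by
  have e1 : l (WW fun a w => X a (w + (t : ℂ)) + c a) = l (WW fun a w => X a (w + (t : ℂ))) := by
    refine d18_l_tr (R := R) hss hl hi (X := fun a w => X a (w + (t : ℂ))) ?_ ?_ ?_ c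
    · intro i
      refine (hX i).comp (f := fun w : ℂ => w + (t : ℂ)) (differentiable_id.add_const _).differentiableOn ?_
      exact fun z hz => d18_St_add hz _
    · intro i z hz
      rw [show z + 1 + (t : ℂ) = z + (t : ℂ) + 1 by ring]
      exact hp i _ (d18_St_add hz _)
    · exact fun i z hz => hb i _ (d18_St_add hz _)
  have e2 : (WW fun a w => X a (w + (t : ℂ))) = shf t (WW X) := by
    funext z
    rfl
  rw [e1, e2, hr s hss _ (WW_BO hX hp hb) t]

end

end Pool.Agent.Helper67.DO
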