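import Pool.Agent.Helper2.DO.D18a

/-!
# D18, second part: `II l` is a level cochain
-/

namespace Pool.Agent.Helper67.DO

open scoped BigOperators Real
open MeasureTheory Filter Topology

noncomputable section

theorem d18_lam_bd {q i : ℕ} {u : Fin q → ℝ} (hu : u ∈ Set.Icc (0 : Fin q → ℝ) 1) : |lam q i u| ≤ 1 := by
  unfold lam
  have h1 : ∀ k : Fin q, |if (k : ℕ) < i then u k else 1| ≤ 1 := by
    intro k
    split_ifs
    · exact abs_le.2 ⟨by linarith [show (0 : ℝ) ≤ u k from hu.1 k], hu.2 k⟩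
    · simp
  have h2 : ∀ k : Fin q, |if (k : ℕ) = i then 1 - u k else 1| ≤ 1 := by
    intro k
    split_ifs
    · exact abs_le.2 ⟨by linarith [show u k ≤ (1 : ℝ) from hu.2 k], by linarith [show (0 : ℝ) ≤ u k from hu.1 k]⟩
    · simp
  rw [abs_mul, Finset.abs_prod, Finset.abs_prod]
  have h3 := Finset.prod_le_one (s := (Finset.univ : Finset (Fin q))) (fun k _ => abs_nonneg _) (fun k _ => h1 k)
  have h4 := Finset.prod_le_one (s := (Finset.univ : Finset (Fin q))) (fun k _ => abs_nonneg _) (fun k _ => h2 k)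
  exact mul_le_one₀ h3 (Finset.prod_nonneg fun k _ => abs_nonneg _) h4

theorem d18_upd {q : ℕ} {u : Fin q → ℝ} (hu : u ∈ Set.Icc (0 : Fin q → ℝ) 1) (a : Fin q) {t : ℝ}
    (ht : t ∈ Set.Icc (0 : ℝ) 1) : Function.update u a t ∈ Set.Icc (0 : Fin q → ℝ) 1 := by
  constructor
  · intro k
    by_cases hk : k = a
    · subst hk
      simpa using ht.1
    · rw [Function.update_of_ne hk]
      exact hu.1 k
  · intro k
    by_cases hk : k = a
    · subst hk
      simpa using ht.2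
    · rw [Function.update_of_ne hk]
      exact hu.2 k

theorem d18_dPhi_eq {q : ℕ} (y : Sq) (a : Fin q) (u : Fin q → ℝ) : dPhi q y a u =
    fun x => Phi q y (Function.update u a 1) x - Phi q y (Function.update u a 0) x := by
  funext x
  unfold dPhi Phi
  rw [← Finset.sum_sub_distrib]
  exact Finset.sum_congr rfl fun i _ => by rw [dlam_eq]; ring

theorem d18_Phi_tr {q : ℕ} (y : Sq) (t : ℕ → ℝ) (u : Fin q → ℝ) : Phi q (fun k x => y k x + t k) u =
    fun x => Phi q y u x + ∑ i ∈ Finset.range (q + 1), lam q i u * t i := by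
  funext x
  unfold Phi
  rw [← Finset.sum_add_distrib]
  exact Finset.sum_congr rfl fun i _ => by ring

theorem d18_dPhi_tr {q : ℕ} (y : Sq) (t : ℕ → ℝ) (a : Fin q) (u : Fin q → ℝ) : dPhi q (fun k x => y k x + t k) a u =
    fun x => dPhi q y a u x + ∑ i ∈ Finset.range (q + 1), dlam q i a u * t i := by
  funext x
  unfold dPhi
  rw [← Finset.sum_add_distrib]
  exact Finset.sum_congr rfl fun i _ => by ring

/-- real translation invariance -/
theorem d18_tinv {n q : ℕ} {ρ s M s' : ℝ} (h2 : ST_D2) (hn : 1 ≤ n) (hI : Inv n ρ s M) (hs' : s' < s)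
    {l : ((Fin (q + 1) → ℂ) → ℂ) → ℂ} (hl : Fnl (q + 1) (St s') l) (hr : Rot (q + 1) s' l) (hi : Io q s' l)
    {y : Sq} (hy : ∀ k, y k ∈ AA n) (t : ℕ → ℝ) :
    II ρ (q + 1) l (fun k x => y k x + t k) = II ρ (q + 1) l y := by
  obtain ⟨K, hK⟩ := h2.2.2.2.2.2.2.2 n hn (q + 1) y hy
  have hΦ := h2.2.2.2.2.2.2.1 n hn (q + 1) y hy
  unfold II cub
  refine setIntegral_congr_fun measurableSet_Icc fun u hu => ?_
  rw [d18_Phi_tr]
  set c := ∑ i ∈ Finset.range (q + 1 + 1), lam (q + 1) i u * t i with hc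
  set d : Fin (q + 1) → ℝ := fun a => ∑ i ∈ Finset.range (q + 1 + 1), dlam (q + 1) i a u * t i with hd
  have e1 : ∀ a, dPhi (q + 1) (fun k x => y k x + t k) a u = fun x => dPhi (q + 1) y a u x + d a :=
    fun a => d18_dPhi_tr y t a u
  have hΦc : (fun x => Phi (q + 1) y u x + c) ∈ AA n := (h2.2.2.2.2.1 n hn _ (hΦ u hu) c).1
  have hvc : ∀ a, (fun x => dPhi (q + 1) y a u x + d a) ∈ VV n (K + |d a| + 1) :=
    fun a => d18_VV_const h2 hn (hK u hu a) (d a)
  have hvc' : ∀ a, (fun x => dPhi (q + 1) y a u x + d a) ∈ VV n (K + (∑ b, |d b|) + 1) := by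
    intro a
    refine d18_VV_mono h2 hn ?_ (hvc a)
    have : |d a| ≤ ∑ b, |d b| := Finset.single_le_sum (f := fun b => |d b|) (fun b _ => abs_nonneg _) (Finset.mem_univ a)
    linarith
  have e2 : (fun a => pull ρ (fun x => Phi (q + 1) y u x + c) (dPhi (q + 1) (fun k x => y k x + t k) a u))
      = fun a => pull ρ (fun x => Phi (q + 1) y u x + c) (fun x => dPhi (q + 1) y a u x + d a) := by
    funext a
    rw [e1 a]
  rw [e2]
  have hsub : St s' ⊆ St s := St_mono hs'.le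
  have B1 : BO (q + 1) (St s) (WW fun a => pull ρ (fun x => Phi (q + 1) y u x + c)
      (fun x => dPhi (q + 1) y a u x + d a)) := WWpull_BO hI hΦc hvc'
  have hpp := fun a => pull_prop hI (hΦ u hu) (hK u hu a)
  have e3 : ∀ z ∈ PU (q + 1) (St s), (WW fun a => pull ρ (fun x => Phi (q + 1) y u x + c)
      (fun x => dPhi (q + 1) y a u x + d a)) z =
      (WW fun a w => pull ρ (Phi (q + 1) y u) (dPhi (q + 1) y a u) (w + ((-c : ℝ) : ℂ)) + (d a : ℂ)) z := by
    intro z hz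
    unfold WW
    congr 1
    ext a b
    simp only [Matrix.of_apply]
    exact d18_pull_tr hI (hΦ u hu) (hK u hu a) hΦc (hvc a) (z b) (hz b)
  have B2 : BO (q + 1) (St s) (WW fun a w => pull ρ (Phi (q + 1) y u) (dPhi (q + 1) y a u) (w + ((-c : ℝ) : ℂ))
      + (d a : ℂ)) := B1.congr (fun z hz => (e3 z hz).symm) d18_St_one
  rw [hl.ext' (B1.mono hsub) (B2.mono hsub) fun z hz => e3 z (PU_mono hsub hz)]
  exact d18_l_rel hs' hl hr hi (fun a => (hpp a).1) (fun a => (hpp a).2.1) (fun a => (hpp a).2.2) _ _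

/-- right invariance -/
theorem d18_rinv {n q : ℕ} {ρ s M s' : ℝ} (h2 : ST_D2) (hn : 1 ≤ n) (hI : Inv n ρ s M) (hs' : s' < s)
    {l : ((Fin (q + 1) → ℂ) → ℂ) → ℂ} (hl : Fnl (q + 1) (St s') l)
    {y : Sq} (hy : ∀ k, y k ∈ AA n) (g : ℝ → ℝ) (hyg : ∀ k, (fun x => y k (g x)) ∈ AA n) :
    II ρ (q + 1) l (fun k x => y k (g x)) = II ρ (q + 1) l y := by
  obtain ⟨K, hK⟩ := h2.2.2.2.2.2.2.2 n hn (q + 1) y hy
  have hΦ := h2.2.2.2.2.2.2.1 n hn (q + 1) y hy
  obtain ⟨K', hK'⟩ := h2.2.2.2.2.2.2.2 n hn (q + 1) (fun k x => y k (g x)) hyg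
  have hΦ' := h2.2.2.2.2.2.2.1 n hn (q + 1) (fun k x => y k (g x)) hyg
  unfold II cub
  refine setIntegral_congr_fun measurableSet_Icc fun u hu => ?_
  have hsub : St s' ⊆ St s := St_mono hs'.le
  refine hl.ext' ((WWpull_BO hI (hΦ' u hu) (hK' u hu)).mono hsub) ((WWpull_BO hI (hΦ u hu) (hK u hu)).mono hsub) ?_
  intro z hz
  unfold WW
  congr 1
  ext a b
  simp only [Matrix.of_apply]
  exact d18_pull_comp hI (hΦ u hu) (hK u hu a) (hΦ' u hu) (hK' u hu a) (z b) (hsub (hz b))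

/-- uniform bound for the directions of normalized simplices -/
theorem d18_unifK (h2 : ST_D2) (n q : ℕ) (hn : 1 ≤ n) (R : ℝ) : ∃ K : ℝ, ∀ y : Sq, (∀ k, y k ∈ AA n) →
    (∀ k ≤ q, |y k 0| ≤ R) → ∀ u ∈ Set.Icc (0 : Fin q → ℝ) 1, ∀ a : Fin q, dPhi q y a u ∈ VV n K := by
  obtain ⟨K0, hK0, hK⟩ := h2.2.2.2.2.2.1 n hn
  refine ⟨2 * K0 + 2 * ((q + 1) * |R|) + 1, fun y hy hy0 u hu a => ?_⟩
  rw [d18_dPhi_eq]
  have hΦ := h2.2.2.2.2.2.2.1 n hn q y hy
  have u1 := d18_upd hu a (t := 1) ⟨by norm_num, le_rfl⟩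
  have u0 := d18_upd hu a (t := 0) ⟨le_rfl, by norm_num⟩
  have hb : ∀ u' ∈ Set.Icc (0 : Fin q → ℝ) 1, |Phi q y u' 0| ≤ (q + 1) * |R| := by
    intro u' hu'
    unfold Phi
    calc |∑ i ∈ Finset.range (q + 1), lam q i u' * y i 0| ≤ ∑ i ∈ Finset.range (q + 1), |lam q i u' * y i 0| :=
          Finset.abs_sum_le_sum_abs _ _
      _ ≤ ∑ i ∈ Finset.range (q + 1), |R| := by
          refine Finset.sum_le_sum fun i hi => ?_
          rw [abs_mul]
          have h1 := d18_lam_bd (i := i) hu'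
          have h3 : |y i 0| ≤ |R| := (hy0 i (by have := Finset.mem_range.1 hi; omega)).trans (le_abs_self R)
          calc |lam q i u'| * |y i 0| ≤ 1 * |R| := mul_le_mul h1 h3 (abs_nonneg _) zero_le_one
            _ = |R| := one_mul _
      _ = (q + 1) * |R| := by
          rw [Finset.sum_const, Finset.card_range, nsmul_eq_mul]
          push_cast
          ring
  refine d18_VV_sub h2 hn ?_ (hΦ _ u1) (hΦ _ u0) ?_
  · have : 0 ≤ ((q : ℝ) + 1) * |R| := by positivity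
    linarith
  · intro x
    have a1 := hK _ (hΦ _ u1) x
    have a0 := hK _ (hΦ _ u0) x
    have b1 := hb _ u1
    have b0 := hb _ u0
    rw [abs_le] at a1 a0 b1 b0 ⊢
    constructor <;> linarith [a1.1, a1.2, a0.1, a0.2, b1.1, b1.2, b0.1, b0.2]

/-- uniform continuity on normalized simplices -/
theorem d18_uc0 {n q : ℕ} {ρ s M s' : ℝ} (h2 : ST_D2) (hn : 1 ≤ n) (hI : Inv n ρ s M) (hs' : s' < s)
    {l : ((Fin q → ℂ) → ℂ) → ℂ} (hl : Fnl q (St s') l) (R : ℝ) (ε : ℝ) (hε : 0 < ε) :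
    ∃ δ : ℝ, 0 < δ ∧ ∀ y y' : Sq, (∀ k, y k ∈ AA n) → (∀ k, y' k ∈ AA n) → (∀ k ≤ q, |y k 0| ≤ R) →
      (∀ k ≤ q, |y' k 0| ≤ R) → (∀ k ≤ q, ∀ x, |y k x - y' k x| ≤ δ) → ‖II ρ q l y - II ρ q l y'‖ ≤ ε := by
  obtain ⟨K, hK⟩ := d18_unifK h2 n q hn R
  obtain ⟨C, hC, H⟩ := hl.bdd
  obtain ⟨δ, hδ, HW⟩ := WW_uc q (M * K) (ε / (C + 1)) (by positivity)
  obtain ⟨δ', hδ', HS⟩ := hI.stab K δ hδ
  refine ⟨δ' / (2 * (q + 1)), by positivity, fun y y' hy hy' hR hR' hd => ?_⟩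
  have hΦ := h2.2.2.2.2.2.2.1 n hn q y hy
  have hΦ' := h2.2.2.2.2.2.2.1 n hn q y' hy'
  have hsub : St s' ⊆ St s := St_mono hs'.le
  -- distance of the simplices
  have hdist : ∀ u ∈ Set.Icc (0 : Fin q → ℝ) 1, ∀ x, |Phi q y u x - Phi q y' u x| ≤ δ' / 2 := by
    intro u hu x
    unfold Phi
    rw [← Finset.sum_sub_distrib]
    calc |∑ i ∈ Finset.range (q + 1), (lam q i u * y i x - lam q i u * y' i x)|
        ≤ ∑ i ∈ Finset.range (q + 1), |lam q i u * y i x - lam q i u * y' i x| := Finset.abs_sum_le_sum_abs _ _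
      _ ≤ ∑ i ∈ Finset.range (q + 1), δ' / (2 * (q + 1)) := by
          refine Finset.sum_le_sum fun i hi => ?_
          rw [← mul_sub, abs_mul]
          have h1 := d18_lam_bd (i := i) hu
          have h3 := hd i (by have := Finset.mem_range.1 hi; omega) x
          calc |lam q i u| * |y i x - y' i x| ≤ 1 * (δ' / (2 * (q + 1))) := mul_le_mul h1 h3 (abs_nonneg _) zero_le_one
            _ = _ := one_mul _
      _ = δ' / 2 := by
          rw [Finset.sum_const, Finset.card_range, nsmul_eq_mul]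
          push_cast
          field_simp
  have hdist' : ∀ u ∈ Set.Icc (0 : Fin q → ℝ) 1, ∀ a x, |dPhi q y a u x - dPhi q y' a u x| ≤ δ' := by
    intro u hu a x
    rw [d18_dPhi_eq, d18_dPhi_eq]
    have a1 := hdist _ (d18_upd hu a (t := 1) ⟨by norm_num, le_rfl⟩) x
    have a0 := hdist _ (d18_upd hu a (t := 0) ⟨le_rfl, by norm_num⟩) x
    rw [abs_le] at a1 a0 ⊢
    simp only
    constructor <;> linarith [a1.1, a1.2, a0.1, a0.2]
  unfold II cub
  rw [← integral_sub (integrableII h2 hn hI hs'.le hl hy) (integrableII h2 hn hI hs'.le hl hy')]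
  have hvol : (volume (Set.Icc (0 : Fin q → ℝ) 1)).toReal = 1 := by
    rw [Real.volume_Icc_pi_toReal zero_le_one]
    simp
  have hfin : volume (Set.Icc (0 : Fin q → ℝ) 1) < ⊤ := isCompact_Icc.measure_lt_top
  have hbd : ∀ u ∈ Set.Icc (0 : Fin q → ℝ) 1, ‖l (WW fun a => pull ρ (Phi q y u) (dPhi q y a u)) -
      l (WW fun a => pull ρ (Phi q y' u) (dPhi q y' a u))‖ ≤ ε := by
    intro u hu
    have b1 := (WWpull_BO hI (hΦ u hu) (hK y hy hR u hu)).mono hsub
    have b2 := (WWpull_BO hI (hΦ' u hu) (hK y' hy' hR' u hu)).mono hsub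
    rw [← hl.sub' b1 b2]
    have h3 := H _ (b1.sub b2) (ε / (C + 1)) (fun z hz => by
      have hz' : ∀ j, z j ∈ St s := fun j => hsub (hz j)
      refine HW _ _ z (fun i j => (pull_prop hI (hΦ u hu) (hK y hy hR u hu i)).2.2 _ (hz' j))
        (fun i j => (pull_prop hI (hΦ' u hu) (hK y' hy' hR' u hu i)).2.2 _ (hz' j)) (fun i j => ?_)
      exact (HS _ (hΦ u hu) _ (hΦ' u hu) _ (hK y hy hR u hu i) _ (hK y' hy' hR' u hu i)
        (fun x => (hdist u hu x).trans (by linarith)) (hdist' u hu i)).1 _ (hz' j)) (by positivity)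
    refine h3.trans ?_
    have : C * (ε / (C + 1)) = ε * (C / (C + 1)) := by
      field_simp
    rw [this]
    have h4 : C / (C + 1) ≤ 1 := by
      rw [div_le_one (by positivity)]
      linarith
    nlinarith
  have := norm_setIntegral_le_of_norm_le_const hfin hbd
  rw [Measure.real, hvol, mul_one] at this
  exact this

theorem d18_LC {n q : ℕ} {ρ s M s' : ℝ} (h2 : ST_D2) (hn : 1 ≤ n) (hI : Inv n ρ s M) (hs' : s' < s)
    {l : ((Fin (q + 1) → ℂ) → ℂ) → ℂ} (hl : Fnl (q + 1) (St s') l) (hr : Rot (q + 1) s' l) (hi : Io q s' l) :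
    LC n (q + 1) (II ρ (q + 1) l) := by
  refine ⟨?_, ?_, ?_, ?_⟩
  · intro y y' h
    have e1 : ∀ u, Phi (q + 1) y u = Phi (q + 1) y' u := by
      intro u
      funext x
      unfold Phi
      exact Finset.sum_congr rfl fun i hi => by rw [h i (by have := Finset.mem_range.1 hi; omega)]
    have e2 : ∀ a u, dPhi (q + 1) y a u = dPhi (q + 1) y' a u := by
      intro a u
      rw [d18_dPhi_eq, d18_dPhi_eq, e1, e1]
    unfold II
    simp only [e1, e2]
  · intro ε hε
    obtain ⟨δ, hδ, H⟩ := d18_uc0 h2 hn hI hs' hl 2 ε hε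
    refine ⟨min δ 1, by positivity, fun y y' hy hy' hd => ?_⟩
    set t : ℕ → ℝ := fun k => -(⌊y k 0⌋ : ℝ) with ht
    rw [← d18_tinv h2 hn hI hs' hl hr hi hy t, ← d18_tinv h2 hn hI hs' hl hr hi hy' t]
    refine H _ _ (fun k => (h2.2.2.2.2.1 n hn _ (hy k) (t k)).1) (fun k => (h2.2.2.2.2.1 n hn _ (hy' k) (t k)).1)
      ?_ ?_ ?_
    · intro k _
      have a1 := Int.floor_le (y k 0)
      have a2 := Int.lt_floor_add_one (y k 0)
      rw [abs_le]
      simp only [ht]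
      constructor <;> linarith
    · intro k hk
      have a1 := Int.floor_le (y k 0)
      have a2 := Int.lt_floor_add_one (y k 0)
      have a3 := abs_le.1 ((hd k hk 0).trans (min_le_right _ _))
      rw [abs_le]
      simp only [ht]
      constructor <;> linarith [a3.1, a3.2]
    · intro k hk x
      have a3 := (hd k hk x).trans (min_le_left _ _)
      have e : y k x + t k - (y' k x + t k) = y k x - y' k x := by ring
      rw [e]
      exact a3
  · intro y t hy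
    exact d18_tinv h2 hn hI hs' hl hr hi hy fun k => (t k : ℝ)
  · intro y g _ hy hyg
    exact d18_rinv h2 hn hI hs' hl hy g hyg

end

end Pool.Agent.Helper67.DO
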