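import Pool.Agent.Helper2.DO.D18b

/-!
# D18, third part: derivatives of pulled back fields along the simplex
-/

namespace Pool.Agent.Helper67.DO

open scoped BigOperators Real
open MeasureTheory Filter Topology

noncomputable section

/-! ### implicit functions -/

/-- an implicitly defined curve is differentiable -/
theorem d18_implicit {A0 A1 : ℂ → ℂ} {ζ : ℝ → ℂ} {w D : ℂ} {t0 : ℝ} {M : ℝ}
    (h0 : AnalyticAt ℂ A0 (ζ t0)) (h1 : AnalyticAt ℂ A1 (ζ t0))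
    (hA : ∀ᶠ t in 𝓝 t0, A0 (ζ t) + (t : ℂ) * A1 (ζ t) = w)
    (hinj : ∀ᶠ t in 𝓝 t0, ‖ζ t - ζ t0‖ ≤ M * ‖(A0 (ζ t) + (t : ℂ) * A1 (ζ t)) - (A0 (ζ t0) + (t : ℂ) * A1 (ζ t0))‖)
    (hD : deriv A0 (ζ t0) + (t0 : ℂ) * deriv A1 (ζ t0) = D) (hD0 : D ≠ 0) :
    HasDerivAt ζ (-A1 (ζ t0) / D) t0 := by
  have hw := hA.self_of_nhds
  -- continuity
  have hcont : ContinuousAt ζ t0 := by
    have hb : ∀ᶠ t in 𝓝 t0, ‖ζ t - ζ t0‖ ≤ M * (|t0 - t| * ‖A1 (ζ t0)‖) := by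
      filter_upwards [hA, hinj] with t ht hi
      refine hi.trans (le_of_eq ?_)
      rw [ht, ← hw]
      have e : A0 (ζ t0) + (t0 : ℂ) * A1 (ζ t0) - (A0 (ζ t0) + (t : ℂ) * A1 (ζ t0)) = ((t0 - t : ℝ) : ℂ) * A1 (ζ t0) := by
        push_cast
        ring
      rw [e, norm_mul, Complex.norm_real, Real.norm_eq_abs]
    have hlim : Tendsto (fun t : ℝ => M * (|t0 - t| * ‖A1 (ζ t0)‖)) (𝓝 t0) (𝓝 0) := by
      have : Continuous fun t : ℝ => M * (|t0 - t| * ‖A1 (ζ t0)‖) := by fun_prop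
      have h := this.tendsto t0
      simpa using h
    have h3 : Tendsto (fun t => ‖ζ t - ζ t0‖) (𝓝 t0) (𝓝 0) :=
      squeeze_zero' (Eventually.of_forall fun _ => norm_nonneg _) hb hlim
    exact tendsto_iff_norm_sub_tendsto_zero.2 h3
  -- `f = F(t0, ·)`
  set f : ℂ → ℂ := fun z => A0 z + (t0 : ℂ) * A1 z with hf
  have hfan : AnalyticAt ℂ f (ζ t0) := h0.add (analyticAt_const.mul h1)
  have hfd : deriv f (ζ t0) = D := by
    rw [← hD]
    exact ((h0.differentiableAt.hasDerivAt).add ((h1.differentiableAt.hasDerivAt).const_mul (t0 : ℂ))).deriv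
  have hstrict : HasStrictDerivAt f D (ζ t0) := by
    have := hfan.hasStrictDerivAt
    rwa [hfd] at this
  -- derivative of `f ∘ ζ`
  have hA1c : ContinuousAt (fun t => A1 (ζ t)) t0 := ContinuousAt.comp (g := A1) h1.continuousAt hcont
  have hcomp : HasDerivAt (fun t => f (ζ t)) (-A1 (ζ t0)) t0 := by
    have h2 : HasDerivAt (fun t : ℝ => w + ((t0 - t : ℝ) : ℂ) * A1 (ζ t)) (-A1 (ζ t0)) t0 := by
      rw [hasDerivAt_iff_tendsto_slope]
      have h4 : Tendsto (fun t => -A1 (ζ t)) (𝓝[≠] t0) (𝓝 (-A1 (ζ t0))) :=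
        (hA1c.neg.tendsto).mono_left nhdsWithin_le_nhds
      refine h4.congr' ?_
      filter_upwards [self_mem_nhdsWithin] with t ht
      have hne : (t : ℝ) - t0 ≠ 0 := sub_ne_zero.2 ht
      rw [slope_def_module]
      have e : w + ((t0 - t : ℝ) : ℂ) * A1 (ζ t) - (w + ((t0 - t0 : ℝ) : ℂ) * A1 (ζ t0)) = (t - t0) • (-A1 (ζ t)) := by
        rw [Complex.real_smul]
        push_cast
        ring
      rw [e, smul_smul, inv_mul_cancel₀ hne, one_smul]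
    refine h2.congr_of_eventuallyEq ?_
    filter_upwards [hA] with t ht
    simp only [hf]
    rw [← ht]
    push_cast
    ring
  -- invert
  have hloc : HasDerivAt (hstrict.localInverse f D (ζ t0) hD0) D⁻¹ (f (ζ t0)) :=
    (hstrict.to_localInverse hD0).hasDerivAt
  have hleft : ∀ᶠ x in 𝓝 (ζ t0), hstrict.localInverse f D (ζ t0) hD0 (f x) = x :=
    HasStrictFDerivAt.eventually_left_inverse _
  have h5 : HasDerivAt (fun t => hstrict.localInverse f D (ζ t0) hD0 (f (ζ t))) (-A1 (ζ t0) • D⁻¹) t0 :=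
    HasDerivAt.scomp t0 hloc hcomp
  have h6 : ζ =ᶠ[𝓝 t0] fun t => hstrict.localInverse f D (ζ t0) hD0 (f (ζ t)) := by
    filter_upwards [hcont.eventually hleft] with t ht
    exact ht.symm
  have h7 := h5.congr_of_eventuallyEq h6
  refine h7.congr_deriv ?_
  rw [smul_eq_mul, div_eq_mul_inv]

/-! ### affine structure -/

/-- second differences -/
def d18dd {q : ℕ} (y : Sq) (a b : Fin q) (u : Fin q → ℝ) : ℝ → ℝ :=
  fun x => dPhi q y b (Function.update u a 1) x - dPhi q y b (Function.update u a 0) x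

theorem d18_Phi_aff {q : ℕ} (y : Sq) (a : Fin q) (u : Fin q → ℝ) (t : ℝ) (x : ℝ) :
    Phi q y (Function.update u a t) x = (1 - t) * Phi q y (Function.update u a 0) x
      + t * Phi q y (Function.update u a 1) x := by
  unfold Phi
  rw [Finset.mul_sum, Finset.mul_sum, ← Finset.sum_add_distrib]
  exact Finset.sum_congr rfl fun i _ => by rw [lam_update]; ring

theorem d18_dPhi_self {q : ℕ} (y : Sq) (a : Fin q) (u : Fin q → ℝ) (t : ℝ) :
    dPhi q y a (Function.update u a t) = dPhi q y a u := by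
  rw [d18_dPhi_eq, d18_dPhi_eq]
  simp only [Function.update_idem]

theorem d18_dPhi_aff {q : ℕ} (y : Sq) (a b : Fin q) (u : Fin q → ℝ) (t : ℝ) (x : ℝ) :
    dPhi q y b (Function.update u a t) x = (1 - t) * dPhi q y b (Function.update u a 0) x
      + t * dPhi q y b (Function.update u a 1) x := by
  by_cases hab : b = a
  · subst hab
    rw [d18_dPhi_self, d18_dPhi_self, d18_dPhi_self]
    ring
  · rw [d18_dPhi_eq, d18_dPhi_eq, d18_dPhi_eq]
    simp only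
    rw [Function.update_comm (Ne.symm hab), Function.update_comm (Ne.symm hab), Function.update_comm (Ne.symm hab),
      Function.update_comm (Ne.symm hab), Function.update_comm (Ne.symm hab), Function.update_comm (Ne.symm hab),
      d18_Phi_aff y a (Function.update u b 1) t x, d18_Phi_aff y a (Function.update u b 0) t x]
    ring

theorem d18dd_symm {q : ℕ} (y : Sq) (a b : Fin q) (u : Fin q → ℝ) : d18dd y a b u = d18dd y b a u := by
  by_cases hab : b = a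
  · subst hab
    rfl
  · funext x
    unfold d18dd
    rw [d18_dPhi_eq, d18_dPhi_eq, d18_dPhi_eq, d18_dPhi_eq]
    simp only
    rw [Function.update_comm (Ne.symm hab) 1 1, Function.update_comm (Ne.symm hab) 1 0,
      Function.update_comm (Ne.symm hab) 0 1, Function.update_comm (Ne.symm hab) 0 0]
    ring

theorem d18dd_update {q : ℕ} (y : Sq) (a b : Fin q) (u : Fin q → ℝ) (t : ℝ) :
    d18dd y a b (Function.update u a t) = d18dd y a b u := by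
  unfold d18dd
  simp only [Function.update_idem]

/-- affine combination of complex extensions -/
theorem d18_cx_aff {n : ℕ} {ρ s M : ℝ} (hI : Inv n ρ s M) {Φ Φ0 Φ1 : ℝ → ℝ} (hΦ : Φ ∈ AA n) (h0 : Φ0 ∈ AA n)
    (h1 : Φ1 ∈ AA n) {t : ℝ} (h : ∀ x, Φ x = (1 - t) * Φ0 x + t * Φ1 x) :
    ∀ z ∈ St (2 * ρ), cx Φ z = cx Φ0 z + (t : ℂ) * (cx Φ1 z - cx Φ0 z) := by
  have hρ : 0 < 2 * ρ := by linarith [hI.pos.1, hI.pos.2.1]
  refine d18_id hρ (hI.hol Φ hΦ) ((hI.hol Φ0 h0).add (((hI.hol Φ1 h1).sub (hI.hol Φ0 h0)).const_mul _)) ?_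
  intro x
  rw [hI.real Φ hΦ, hI.real Φ0 h0, hI.real Φ1 h1, h x]
  push_cast
  ring

theorem d18_four_sub {n : ℕ} {ρ s M K : ℝ} (hI : Inv n ρ s M) {v Φ0 Φ1 : ℝ → ℝ} (hv : v ∈ VV n K) (h0 : Φ0 ∈ AA n)
    (h1 : Φ1 ∈ AA n) (h : ∀ x, v x = Φ1 x - Φ0 x) :
    ∀ z ∈ St (2 * ρ), four v z = cx Φ1 z - cx Φ0 z := by
  have hρ : 0 < 2 * ρ := by linarith [hI.pos.1, hI.pos.2.1]
  refine d18_id hρ (hI.vhol K v hv) ((hI.hol Φ1 h1).sub (hI.hol Φ0 h0)) ?_
  intro x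
  rw [hI.vreal K v hv, hI.real Φ0 h0, hI.real Φ1 h1, h x]
  push_cast
  ring

theorem d18_four_aff {n : ℕ} {ρ s M K K0 K' : ℝ} (hI : Inv n ρ s M) {v v0 v1 d : ℝ → ℝ} (hv : v ∈ VV n K)
    (h0 : v0 ∈ VV n K0) (hd : d ∈ VV n K') {t : ℝ} (h : ∀ x, v x = (1 - t) * v0 x + t * v1 x)
    (hdd : ∀ x, d x = v1 x - v0 x) :
    ∀ z ∈ St (2 * ρ), four v z = four v0 z + (t : ℂ) * four d z := by
  have hρ : 0 < 2 * ρ := by linarith [hI.pos.1, hI.pos.2.1]
  refine d18_id hρ (hI.vhol K v hv) ((hI.vhol _ _ h0).add ((hI.vhol _ _ hd).const_mul _)) ?_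
  intro x
  rw [hI.vreal K v hv, hI.vreal _ _ h0, hI.vreal _ _ hd, h x, hdd x]
  push_cast
  ring

/-! ### the derivative of a pulled back field -/

theorem d18_cinv {n : ℕ} {ρ s M : ℝ} (hI : Inv n ρ s M) {Φ : ℝ → ℝ} (hΦ : Φ ∈ AA n) {w : ℂ} (hw : w ∈ St s) :
    AnalyticAt ℂ (cx Φ) (cinv ρ Φ w) ∧ deriv (cx Φ) (cinv ρ Φ w) ≠ 0 ∧
      HasDerivAt (cinv ρ Φ) (deriv (cx Φ) (cinv ρ Φ w))⁻¹ w := by
  have hρ : 0 < ρ := hI.pos.1.trans_le hI.pos.2.1
  have hm := (hI.inv Φ hΦ w hw).1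
  have hm2 : cinv ρ Φ w ∈ St (2 * ρ) := St_mono (by linarith) hm
  have han : AnalyticAt ℂ (cx Φ) (cinv ρ Φ w) := (hI.hol Φ hΦ).analyticOnNhd (isOpen_St _) _ hm2
  have hc : HasDerivAt (cinv ρ Φ) (deriv (cinv ρ Φ) w) w :=
    ((hI.invhol Φ hΦ).differentiableAt ((isOpen_St s).mem_nhds hw)).hasDerivAt
  have hcomp : HasDerivAt (fun w => cx Φ (cinv ρ Φ w)) (deriv (cx Φ) (cinv ρ Φ w) * deriv (cinv ρ Φ) w) w :=
    HasDerivAt.comp w han.differentiableAt.hasDerivAt hc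
  have hid : HasDerivAt (fun w => cx Φ (cinv ρ Φ w)) 1 w := by
    refine (hasDerivAt_id w).congr_of_eventuallyEq ?_
    filter_upwards [(isOpen_St s).mem_nhds hw] with w' hw'
    exact (hI.inv Φ hΦ w' hw').2.1
  have hp := hcomp.unique hid
  have hne : deriv (cx Φ) (cinv ρ Φ w) ≠ 0 := by
    intro h
    rw [h, zero_mul] at hp
    exact zero_ne_one hp
  refine ⟨han, hne, ?_⟩
  have e : deriv (cinv ρ Φ) w = (deriv (cx Φ) (cinv ρ Φ w))⁻¹ := eq_inv_of_mul_eq_one_right hp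
  rw [← e]
  exact hc

theorem d18_pull_deriv {n : ℕ} {ρ s M K : ℝ} (hI : Inv n ρ s M) {Φ v : ℝ → ℝ} (hΦ : Φ ∈ AA n) (hv : v ∈ VV n K)
    {w : ℂ} (hw : w ∈ St s) :
    deriv (pull ρ Φ v) w = deriv (four v) (cinv ρ Φ w) * (deriv (cx Φ) (cinv ρ Φ w))⁻¹ := by
  have hρ : 0 < ρ := hI.pos.1.trans_le hI.pos.2.1
  have hm2 : cinv ρ Φ w ∈ St (2 * ρ) := St_mono (by linarith) (hI.inv Φ hΦ w hw).1
  have h1 : HasDerivAt (four v) (deriv (four v) (cinv ρ Φ w)) (cinv ρ Φ w) :=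
    ((hI.vhol K v hv).differentiableAt ((isOpen_St _).mem_nhds hm2)).hasDerivAt
  exact (HasDerivAt.comp w h1 (d18_cinv hI hΦ hw).2.2).deriv

/-- derivative along the simplex of the pulled back fields -/
theorem d18_hasDeriv {n q : ℕ} {ρ s M K : ℝ} (h2 : ST_D2) (hn : 1 ≤ n) (hI : Inv n ρ s M) {y : Sq}
    (hy : ∀ k, y k ∈ AA n) (hK : ∀ u ∈ Set.Icc (0 : Fin q → ℝ) 1, ∀ a : Fin q, dPhi q y a u ∈ VV n K)
    {u : Fin q → ℝ} (hu : u ∈ Set.Icc (0 : Fin q → ℝ) 1) (a b : Fin q) {t0 : ℝ} (ht0 : t0 ∈ Set.Ioo (0 : ℝ) 1)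
    {w : ℂ} (hw : w ∈ St s) :
    HasDerivAt (fun t : ℝ => pull ρ (Phi q y (Function.update u a t)) (dPhi q y b (Function.update u a t)) w)
      (pull ρ (Phi q y (Function.update u a t0)) (d18dd y a b u) w -
        pull ρ (Phi q y (Function.update u a t0)) (dPhi q y a (Function.update u a t0)) w *
          deriv (pull ρ (Phi q y (Function.update u a t0)) (dPhi q y b (Function.update u a t0))) w) t0 := by
  have hρ : 0 < ρ := hI.pos.1.trans_le hI.pos.2.1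
  have hΦ := h2.2.2.2.2.2.2.1 n hn q y hy
  have hsub : St ρ ⊆ St (2 * ρ) := St_mono (by linarith)
  have hcube : ∀ t ∈ Set.Icc (0 : ℝ) 1, Function.update u a t ∈ Set.Icc (0 : Fin q → ℝ) 1 :=
    fun t ht => d18_upd hu a ht
  have m0 : (0 : ℝ) ∈ Set.Icc (0 : ℝ) 1 := ⟨le_rfl, zero_le_one⟩
  have m1 : (1 : ℝ) ∈ Set.Icc (0 : ℝ) 1 := ⟨zero_le_one, le_rfl⟩
  have ht0' : t0 ∈ Set.Icc (0 : ℝ) 1 := ⟨ht0.1.le, ht0.2.le⟩
  have hev : ∀ᶠ t in 𝓝 t0, t ∈ Set.Icc (0 : ℝ) 1 := Icc_mem_nhds ht0.1 ht0.2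
  set P : ℝ → ℝ → ℝ := fun t => Phi q y (Function.update u a t) with hP
  set V : ℝ → ℝ → ℝ := fun t => dPhi q y b (Function.update u a t) with hV
  have hPm : ∀ t ∈ Set.Icc (0 : ℝ) 1, P t ∈ AA n := fun t ht => hΦ _ (hcube t ht)
  have hVm : ∀ t ∈ Set.Icc (0 : ℝ) 1, V t ∈ VV n K := fun t ht => hK _ (hcube t ht) b
  have hdm : d18dd y a b u ∈ VV n (2 * K) := d18_VV_subVV h2 hn (hVm 1 m1) (hVm 0 m0)
  have ham : dPhi q y a (Function.update u a t0) ∈ VV n K := hK _ (hcube t0 ht0') a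
  -- affine forms
  set A0 : ℂ → ℂ := cx (P 0) with hA0
  set A1 : ℂ → ℂ := fun z => cx (P 1) z - cx (P 0) z with hA1
  set B0 : ℂ → ℂ := four (V 0) with hB0
  set B1 : ℂ → ℂ := four (d18dd y a b u) with hB1
  have hPt : ∀ t ∈ Set.Icc (0 : ℝ) 1, ∀ z ∈ St (2 * ρ), cx (P t) z = A0 z + (t : ℂ) * A1 z := fun t ht =>
    d18_cx_aff hI (hPm t ht) (hPm 0 m0) (hPm 1 m1) fun x => d18_Phi_aff y a u t x
  have hVt : ∀ t ∈ Set.Icc (0 : ℝ) 1, ∀ z ∈ St (2 * ρ), four (V t) z = B0 z + (t : ℂ) * B1 z := fun t ht =>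
    d18_four_aff hI (hVm t ht) (hVm 0 m0) hdm (fun x => d18_dPhi_aff y a b u t x) fun x => rfl
  have haA : ∀ z ∈ St (2 * ρ), four (dPhi q y a (Function.update u a t0)) z = A1 z := by
    refine d18_four_sub hI ham (hPm 0 m0) (hPm 1 m1) fun x => ?_
    rw [d18_dPhi_self, d18_dPhi_eq]
  -- the curve
  set ζ : ℝ → ℂ := fun t => cinv ρ (P t) w with hζ
  have hζm : ∀ t ∈ Set.Icc (0 : ℝ) 1, ζ t ∈ St ρ := fun t ht => (hI.inv _ (hPm t ht) w hw).1
  have hζ0 : ζ t0 ∈ St (2 * ρ) := hsub (hζm t0 ht0')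
  have hA0d : AnalyticAt ℂ A0 (ζ t0) := (hI.hol _ (hPm 0 m0)).analyticOnNhd (isOpen_St _) _ hζ0
  have hA1d : AnalyticAt ℂ A1 (ζ t0) :=
    ((hI.hol _ (hPm 1 m1)).analyticOnNhd (isOpen_St _) _ hζ0).sub hA0d
  have hB0d : AnalyticAt ℂ B0 (ζ t0) := (hI.vhol K _ (hVm 0 m0)).analyticOnNhd (isOpen_St _) _ hζ0
  have hB1d : AnalyticAt ℂ B1 (ζ t0) := (hI.vhol _ _ hdm).analyticOnNhd (isOpen_St _) _ hζ0
  have hD : deriv A0 (ζ t0) + (t0 : ℂ) * deriv A1 (ζ t0) = deriv (cx (P t0)) (ζ t0) := by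
    have h := (hA0d.differentiableAt.hasDerivAt).add ((hA1d.differentiableAt.hasDerivAt).const_mul (t0 : ℂ))
    have e : (cx (P t0)) =ᶠ[𝓝 (ζ t0)] fun z => A0 z + (t0 : ℂ) * A1 z := by
      filter_upwards [(isOpen_St _).mem_nhds hζ0] with z hz
      exact hPt t0 ht0' z hz
    rw [e.deriv_eq]
    exact h.deriv.symm
  have hDne : deriv (cx (P t0)) (ζ t0) ≠ 0 := (d18_cinv hI (hPm t0 ht0') hw).2.1
  have hζd : HasDerivAt ζ (-A1 (ζ t0) / deriv (cx (P t0)) (ζ t0)) t0 := by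
    refine d18_implicit (M := M) hA0d hA1d (w := w) ?_ ?_ hD hDne
    · filter_upwards [hev] with t ht
      rw [← hPt t ht _ (hsub (hζm t ht))]
      exact (hI.inv _ (hPm t ht) w hw).2.1
    · filter_upwards [hev] with t ht
      rw [← hPt t ht _ (hsub (hζm t ht)), ← hPt t ht _ hζ0]
      exact hI.inj _ (hPm t ht) _ (hζm t ht) _ (hζm t0 ht0')
  -- composition
  have hb0 : HasDerivAt (fun t : ℝ => B0 (ζ t)) (deriv B0 (ζ t0) * (-A1 (ζ t0) / deriv (cx (P t0)) (ζ t0))) t0 := by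
    have := HasDerivAt.scomp t0 hB0d.differentiableAt.hasDerivAt hζd
    refine this.congr_deriv ?_
    rw [smul_eq_mul]
    ring
  have hb1 : HasDerivAt (fun t : ℝ => B1 (ζ t)) (deriv B1 (ζ t0) * (-A1 (ζ t0) / deriv (cx (P t0)) (ζ t0))) t0 := by
    have := HasDerivAt.scomp t0 hB1d.differentiableAt.hasDerivAt hζd
    refine this.congr_deriv ?_
    rw [smul_eq_mul]
    ring
  have hof : HasDerivAt (fun t : ℝ => (t : ℂ)) 1 t0 := by
    simpa using (hasDerivAt_id t0).ofReal_comp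
  have hsum := hb0.add (hof.mul hb1)
  have heq : (fun t : ℝ => pull ρ (Phi q y (Function.update u a t)) (dPhi q y b (Function.update u a t)) w)
      =ᶠ[𝓝 t0] fun t : ℝ => B0 (ζ t) + (t : ℂ) * B1 (ζ t) := by
    filter_upwards [hev] with t ht
    exact hVt t ht _ (hsub (hζm t ht))
  refine (hsum.congr_of_eventuallyEq heq).congr_deriv ?_
  -- identify the derivative
  have e1 : pull ρ (Phi q y (Function.update u a t0)) (d18dd y a b u) w = B1 (ζ t0) := rfl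
  have e2 : pull ρ (Phi q y (Function.update u a t0)) (dPhi q y a (Function.update u a t0)) w = A1 (ζ t0) := haA _ hζ0
  have e3 := d18_pull_deriv hI (hPm t0 ht0') (hVm t0 ht0') hw
  have e4 : deriv (four (V t0)) (ζ t0) = deriv B0 (ζ t0) + (t0 : ℂ) * deriv B1 (ζ t0) := by
    have h := (hB0d.differentiableAt.hasDerivAt).add ((hB1d.differentiableAt.hasDerivAt).const_mul (t0 : ℂ))
    have e : (four (V t0)) =ᶠ[𝓝 (ζ t0)] fun z => B0 z + (t0 : ℂ) * B1 z := by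
      filter_upwards [(isOpen_St _).mem_nhds hζ0] with z hz
      exact hVt t0 ht0' z hz
    rw [e.deriv_eq]
    exact h.deriv
  rw [e1, e2]
  have e3' : deriv (pull ρ (Phi q y (Function.update u a t0)) (dPhi q y b (Function.update u a t0))) w
      = (deriv B0 (ζ t0) + (t0 : ℂ) * deriv B1 (ζ t0)) * (deriv (cx (P t0)) (ζ t0))⁻¹ := by
    rw [← e4]
    exact e3
  rw [e3']
  field_simp
  ring

end

end Pool.Agent.Helper67.DO
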