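import Pool.Agent.Helper2.DO.D18c

/-!
# D18, fourth part: families of fields, determinants, Stokes on the cube, sign bookkeeping
-/

namespace Pool.Agent.Helper67.DO

open scoped BigOperators Real
open MeasureTheory Filter Topology

noncomputable section

/-! ### families of fields -/

/-- families of bounded periodic holomorphic functions depending uniformly on a parameter -/
structure D18F {E : Type*} [TopologicalSpace E] (S : Set E) (r : ℝ) (f : E → ℂ → ℂ) : Prop where
  hol : ∀ u ∈ S, DifferentiableOn ℂ (f u) (St r)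
  per : ∀ u ∈ S, ∀ w ∈ St r, f u (w + 1) = f u w
  bd : ∃ B : ℝ, ∀ u ∈ S, ∀ w ∈ St r, ‖f u w‖ ≤ B
  uc : ∀ u0 ∈ S, ∀ ε : ℝ, 0 < ε → ∀ᶠ u in 𝓝[S] u0, ∀ w ∈ St r, ‖f u w - f u0 w‖ ≤ ε

theorem D18F.mono {E : Type*} [TopologicalSpace E] {S : Set E} {r r' : ℝ} {f : E → ℂ → ℂ} (h : D18F S r f)
    (hr : r' ≤ r) : D18F S r' f where
  hol u hu := (h.hol u hu).mono (St_mono hr)
  per u hu w hw := h.per u hu w (St_mono hr hw)
  bd := by
    obtain ⟨B, hB⟩ := h.bd
    exact ⟨B, fun u hu w hw => hB u hu w (St_mono hr hw)⟩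
  uc u0 hu0 ε hε := by
    filter_upwards [h.uc u0 hu0 ε hε] with u hu w hw
    exact hu w (St_mono hr hw)

theorem D18F.sub {E : Type*} [TopologicalSpace E] {S : Set E} {r : ℝ} {f g : E → ℂ → ℂ} (hf : D18F S r f)
    (hg : D18F S r g) : D18F S r (fun u w => f u w - g u w) where
  hol u hu := (hf.hol u hu).sub (hg.hol u hu)
  per u hu w hw := by rw [hf.per u hu w hw, hg.per u hu w hw]
  bd := by
    obtain ⟨B, hB⟩ := hf.bd
    obtain ⟨B', hB'⟩ := hg.bd
    exact ⟨B + B', fun u hu w hw => (norm_sub_le _ _).trans (add_le_add (hB u hu w hw) (hB' u hu w hw))⟩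
  uc u0 hu0 ε hε := by
    filter_upwards [hf.uc u0 hu0 (ε / 2) (by linarith), hg.uc u0 hu0 (ε / 2) (by linarith)] with u h1 h2 w hw
    have e : f u w - g u w - (f u0 w - g u0 w) = (f u w - f u0 w) - (g u w - g u0 w) := by ring
    rw [e]
    exact (norm_sub_le _ _).trans (by linarith [h1 w hw, h2 w hw])

theorem D18F.mul {E : Type*} [TopologicalSpace E] {S : Set E} {r : ℝ} {f g : E → ℂ → ℂ} (hf : D18F S r f)
    (hg : D18F S r g) : D18F S r (fun u w => f u w * g u w) where
  hol u hu := (hf.hol u hu).mul (hg.hol u hu)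
  per u hu w hw := by rw [hf.per u hu w hw, hg.per u hu w hw]
  bd := by
    obtain ⟨B, hB⟩ := hf.bd
    obtain ⟨B', hB'⟩ := hg.bd
    refine ⟨B * B', fun u hu w hw => ?_⟩
    rw [norm_mul]
    have h1 := hB u hu w hw
    have h2 := hB' u hu w hw
    exact mul_le_mul h1 h2 (norm_nonneg _) ((norm_nonneg _).trans h1)
  uc u0 hu0 ε hε := by
    obtain ⟨B, hB⟩ := hf.bd
    obtain ⟨B', hB'⟩ := hg.bd
    filter_upwards [hf.uc u0 hu0 (ε / (2 * (|B'| + 1))) (by positivity), hg.uc u0 hu0 (ε / (2 * (|B| + 1))) (by positivity),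
      self_mem_nhdsWithin] with u h1 h2 hu w hw
    have e : f u w * g u w - f u0 w * g u0 w = f u w * (g u w - g u0 w) + (f u w - f u0 w) * g u0 w := by ring
    rw [e]
    refine (norm_add_le _ _).trans ?_
    rw [norm_mul, norm_mul]
    have a1 : ‖f u w‖ ≤ |B| + 1 := (hB u hu w hw).trans (by linarith [le_abs_self B])
    have a2 : ‖g u0 w‖ ≤ |B'| + 1 := (hB' u0 hu0 w hw).trans (by linarith [le_abs_self B'])
    have b1 : ‖f u w‖ * ‖g u w - g u0 w‖ ≤ (|B| + 1) * (ε / (2 * (|B| + 1))) :=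
      mul_le_mul a1 (h2 w hw) (norm_nonneg _) (by positivity)
    have b2 : ‖f u w - f u0 w‖ * ‖g u0 w‖ ≤ (ε / (2 * (|B'| + 1))) * (|B'| + 1) :=
      mul_le_mul (h1 w hw) a2 (norm_nonneg _) (by positivity)
    have c1 : (|B| + 1) * (ε / (2 * (|B| + 1))) = ε / 2 := by
      have : |B| + 1 ≠ 0 := by positivity
      field_simp
    have c2 : (ε / (2 * (|B'| + 1))) * (|B'| + 1) = ε / 2 := by
      have : |B'| + 1 ≠ 0 := by positivity
      field_simp
    linarith

theorem d18_cauchy {r r' : ℝ} (hr : r' < r) {f : ℂ → ℂ} (hf : DifferentiableOn ℂ f (St r)) {B : ℝ}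
    (hB : ∀ w ∈ St r, ‖f w‖ ≤ B) {w : ℂ} (hw : w ∈ St r') : ‖deriv f w‖ ≤ B / ((r - r') / 2) := by
  have hR : 0 < (r - r') / 2 := by linarith
  have hsub : Metric.closedBall w ((r - r') / 2) ⊆ St r := by
    intro z hz
    have h1 : |(z - w).im| ≤ ‖z - w‖ := Complex.abs_im_le_norm _
    have h2 : ‖z - w‖ ≤ (r - r') / 2 := by
      rw [← dist_eq_norm]
      exact hz
    have h3 : |w.im| < r' := hw
    show |z.im| < r
    rw [Complex.sub_im] at h1
    have h4 : |z.im| ≤ |z.im - w.im| + |w.im| := by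
      have := abs_add_le (z.im - w.im) w.im
      rwa [sub_add_cancel] at this
    linarith
  exact Complex.norm_deriv_le_of_forall_mem_sphere_norm_le hR (hf.diffContOnCl_ball hsub)
    fun z hz => hB z (hsub (Metric.sphere_subset_closedBall hz))

theorem D18F.deriv {E : Type*} [TopologicalSpace E] {S : Set E} {r r' : ℝ} {f : E → ℂ → ℂ} (h : D18F S r f)
    (hr : r' < r) : D18F S r' (fun u w => _root_.deriv (f u) w) where
  hol u hu := ((h.hol u hu).deriv (isOpen_St r)).mono (St_mono hr.le)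
  per u hu w hw := by
    have hw' : w ∈ St r := St_mono hr.le hw
    have e : (fun z => f u (z + 1)) =ᶠ[𝓝 w] f u := by
      filter_upwards [(isOpen_St r).mem_nhds hw'] with z hz
      exact h.per u hu z hz
    rw [← deriv_comp_add_const, e.deriv_eq]
  bd := by
    obtain ⟨B, hB⟩ := h.bd
    exact ⟨_, fun u hu w hw => d18_cauchy hr (h.hol u hu) (hB u hu) hw⟩
  uc u0 hu0 ε hε := by
    have hR : 0 < (r - r') / 2 := by linarith
    filter_upwards [h.uc u0 hu0 (ε * ((r - r') / 2)) (by positivity), self_mem_nhdsWithin] with u h1 hu w hw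
    have hw' : w ∈ St r := St_mono hr.le hw
    have d1 := (h.hol u hu).differentiableAt ((isOpen_St r).mem_nhds hw')
    have d2 := (h.hol u0 hu0).differentiableAt ((isOpen_St r).mem_nhds hw')
    have e : _root_.deriv (f u) w - _root_.deriv (f u0) w = _root_.deriv (fun z => f u z - f u0 z) w :=
      (d1.hasDerivAt.sub d2.hasDerivAt).deriv.symm
    rw [e]
    have := d18_cauchy hr ((h.hol u hu).sub (h.hol u0 hu0)) (B := ε * ((r - r') / 2)) (fun z hz => h1 z hz) hw
    exact this.trans (le_of_eq (mul_div_cancel_right₀ ε hR.ne'))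

/-- wedges of families -/
theorem d18_WW_uc {E : Type*} [TopologicalSpace E] {S : Set E} {r : ℝ} {m : ℕ} {V : Fin m → E → ℂ → ℂ}
    (hV : ∀ c, D18F S r (V c)) {u0 : E} (hu0 : u0 ∈ S) (ε : ℝ) (hε : 0 < ε) :
    ∀ᶠ u in 𝓝[S] u0, ∀ z ∈ PU m (St r), ‖WW (fun c => V c u) z - WW (fun c => V c u0) z‖ ≤ ε := by
  have hB : ∀ c, ∃ B : ℝ, ∀ u ∈ S, ∀ w ∈ St r, ‖V c u w‖ ≤ B := fun c => (hV c).bd
  choose B hB using hB
  have hB' : ∀ c, ∀ u ∈ S, ∀ w ∈ St r, ‖V c u w‖ ≤ ∑ c, |B c| := fun c u hu w hw =>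
    ((hB c u hu w hw).trans (le_abs_self _)).trans
      (Finset.single_le_sum (f := fun c => |B c|) (fun c _ => abs_nonneg _) (Finset.mem_univ c))
  obtain ⟨δ, hδ, H⟩ := WW_uc m (∑ c, |B c|) ε hε
  have h1 : ∀ᶠ u in 𝓝[S] u0, ∀ c, ∀ w ∈ St r, ‖V c u w - V c u0 w‖ ≤ δ :=
    eventually_all.2 fun c => (hV c).uc u0 hu0 δ hδ
  filter_upwards [h1, self_mem_nhdsWithin] with u hu huS z hz
  exact H _ _ z (fun i j => hB' i u huS _ (hz j)) (fun i j => hB' i u0 hu0 _ (hz j)) fun i j => hu i _ (hz j)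

theorem d18_WW_BO {E : Type*} [TopologicalSpace E] {S : Set E} {r : ℝ} {m : ℕ} {V : Fin m → E → ℂ → ℂ}
    (hV : ∀ c, D18F S r (V c)) {u : E} (hu : u ∈ S) : BO m (St r) (WW fun c => V c u) := by
  have hB : ∀ c, ∃ B : ℝ, ∀ u ∈ S, ∀ w ∈ St r, ‖V c u w‖ ≤ B := fun c => (hV c).bd
  choose B hB using hB
  refine WW_BO (R := ∑ c, |B c|) (fun c => (hV c).hol u hu) (fun c => (hV c).per u hu) fun c w hw => ?_
  exact ((hB c u hu w hw).trans (le_abs_self _)).trans
      (Finset.single_le_sum (f := fun c => |B c|) (fun c _ => abs_nonneg _) (Finset.mem_univ c))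

theorem d18_l_cont {E : Type*} [TopologicalSpace E] {S : Set E} {r : ℝ} {m : ℕ} {V : Fin m → E → ℂ → ℂ}
    (hV : ∀ c, D18F S r (V c)) {l : ((Fin m → ℂ) → ℂ) → ℂ} (hl : Fnl m (St r) l) :
    ContinuousOn (fun u => l (WW fun c => V c u)) S := by
  obtain ⟨C, hC, H⟩ := hl.bdd
  intro u0 hu0
  rw [ContinuousWithinAt, Metric.tendsto_nhds]
  intro ε hε
  filter_upwards [d18_WW_uc hV hu0 (ε / (2 * (C + 1))) (by positivity), self_mem_nhdsWithin] with u h1 hu
  rw [dist_eq_norm, ← hl.sub' (d18_WW_BO hV hu) (d18_WW_BO hV hu0)]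
  have h3 := H _ ((d18_WW_BO hV hu).sub (d18_WW_BO hV hu0)) (ε / (2 * (C + 1))) h1 (by positivity)
  refine h3.trans_lt ?_
  have : C * (ε / (2 * (C + 1))) = ε / 2 * (C / (C + 1)) := by
    field_simp
  rw [this]
  have h4 : C / (C + 1) ≤ 1 := by
    rw [div_le_one (by positivity)]
    linarith
  nlinarith

/-! ### derivative of a wedge -/

/-- the determinant as a continuous multilinear map of the rows -/
def d18det (m : ℕ) : ContinuousMultilinearMap ℂ (fun _ : Fin m => Fin m → ℂ) ℂ where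
  toMultilinearMap := (Matrix.detRowAlternating : (Fin m → ℂ) [⋀^Fin m]→ₗ[ℂ] ℂ).toMultilinearMap
  cont := (Continuous.matrix_det continuous_id : Continuous fun A : Fin m → Fin m → ℂ => Matrix.det (Matrix.of A))

theorem d18det_apply {m : ℕ} (V : Fin m → ℂ → ℂ) (z : Fin m → ℂ) : WW V z = d18det m (fun i j => V i (z j)) := rfl

theorem d18_rows_update {m : ℕ} (V : Fin m → ℂ → ℂ) (k : Fin m) (A : ℂ → ℂ) (z : Fin m → ℂ) :
    (fun i j => (Function.update V k A) i (z j)) = Function.update (fun i j => V i (z j)) k (fun j => A (z j)) := by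
  funext i
  by_cases hi : i = k
  · subst hi
    simp
  · rw [Function.update_of_ne hi, Function.update_of_ne hi]

theorem d18_WW_deriv {m : ℕ} {V : Fin m → ℝ → ℂ → ℂ} {V' : Fin m → ℂ → ℂ} {t0 : ℝ} {z : Fin m → ℂ}
    (h : ∀ c j, HasDerivAt (fun t => V c t (z j)) (V' c (z j)) t0) :
    HasDerivAt (fun t => WW (fun c => V c t) z) (∑ c, WW (Function.update (fun c' => V c' t0) c (V' c)) z) t0 := by
  have h1 : HasDerivAt (fun t => (fun i j => V i t (z j) : Fin m → Fin m → ℂ)) (fun i j => V' i (z j)) t0 :=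
    hasDerivAt_pi.2 fun i => hasDerivAt_pi.2 fun j => h i j
  have h2 := ((d18det m).hasFDerivAt (x := fun i j => V i t0 (z j))).restrictScalars ℝ
  have h3 := h2.comp_hasDerivAt t0 h1
  refine h3.congr_deriv ?_
  simp only [ContinuousLinearMap.coe_restrictScalars', ContinuousMultilinearMap.linearDeriv_apply]
  refine Finset.sum_congr rfl fun c _ => ?_
  rw [d18det_apply, d18_rows_update]

theorem d18_WW_update_sub {m : ℕ} (V : Fin m → ℂ → ℂ) (k : Fin m) (A B : ℂ → ℂ) (z : Fin m → ℂ) :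
    WW (Function.update V k (fun w => A w - B w)) z = WW (Function.update V k A) z - WW (Function.update V k B) z := by
  rw [d18det_apply, d18det_apply, d18det_apply, d18_rows_update, d18_rows_update, d18_rows_update,
    ← (d18det m).map_update_sub]
  rfl

/-- derivative of a functional of a wedge of families -/
theorem d18_l_deriv {q m : ℕ} {r : ℝ} {V V' : Fin m → (Fin q → ℝ) → ℂ → ℂ}
    (hV : ∀ c, D18F (Set.Icc (0 : Fin q → ℝ) 1) r (V c)) (hV' : ∀ c, D18F (Set.Icc (0 : Fin q → ℝ) 1) r (V' c))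
    {l : ((Fin m → ℂ) → ℂ) → ℂ} (hl : Fnl m (St r) l) {u : Fin q → ℝ} (hu : u ∈ Set.Icc (0 : Fin q → ℝ) 1)
    (a : Fin q) (hd : ∀ c, ∀ t ∈ Set.Ioo (0 : ℝ) 1, ∀ w ∈ St r,
      HasDerivAt (fun t => V c (Function.update u a t) w) (V' c (Function.update u a t) w) t)
    {t0 : ℝ} (ht0 : t0 ∈ Set.Ioo (0 : ℝ) 1) :
    HasDerivAt (fun t => l (WW fun c => V c (Function.update u a t)))
      (∑ c, l (WW (Function.update (fun c' => V c' (Function.update u a t0)) c (V' c (Function.update u a t0))))) t0 := by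
  classical
  set U : ℝ → Fin q → ℝ := fun t => Function.update u a t with hU
  have hUm : ∀ t ∈ Set.Icc (0 : ℝ) 1, U t ∈ Set.Icc (0 : Fin q → ℝ) 1 := fun t ht => d18_upd hu a ht
  have ht0' : t0 ∈ Set.Icc (0 : ℝ) 1 := ⟨ht0.1.le, ht0.2.le⟩
  -- the modified families
  set F : Fin m → Fin m → (Fin q → ℝ) → ℂ → ℂ := fun c c' => if c' = c then V' c else V c' with hF
  have hFf : ∀ c c', D18F (Set.Icc (0 : Fin q → ℝ) 1) r (F c c') := by
    intro c c'
    simp only [hF]
    split_ifs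
    · exact hV' c
    · exact hV c'
  have hFe : ∀ c u', (fun c' => F c c' u') = Function.update (fun c' => V c' u') c (V' c u') := by
    intro c u'
    funext c'
    by_cases h : c' = c
    · subst h
      simp [hF]
    · rw [Function.update_of_ne h]
      simp [hF, h]
  set D : ℝ → (Fin m → ℂ) → ℂ := fun t z => ∑ c, WW (fun c' => F c c' (U t)) z with hD
  set W : ℝ → (Fin m → ℂ) → ℂ := fun t => WW fun c => V c (U t) with hW
  have hWd : ∀ t ∈ Set.Ioo (0 : ℝ) 1, ∀ z ∈ PU m (St r), HasDerivAt (fun t => W t z) (D t z) t := by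
    intro t ht z hz
    have := d18_WW_deriv (V := fun c t => V c (U t)) (V' := fun c => V' c (U t)) (t0 := t) (z := z)
      fun c j => hd c t ht (z j) (hz j)
    refine this.congr_deriv ?_
    simp only [hD]
    exact Finset.sum_congr rfl fun c _ => by rw [hFe]
  have hWB : ∀ t ∈ Set.Icc (0 : ℝ) 1, BO m (St r) (W t) := fun t ht => d18_WW_BO hV (hUm t ht)
  have hDB : ∀ t ∈ Set.Icc (0 : ℝ) 1, BO m (St r) (D t) := fun t ht =>
    BO.sum Finset.univ (fun c => WW fun c' => F c c' (U t)) fun c _ => d18_WW_BO (hFf c) (hUm t ht)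
  have hUt : Tendsto U (𝓝 t0) (𝓝[Set.Icc (0 : Fin q → ℝ) 1] (U t0)) := by
    refine tendsto_nhdsWithin_iff.2 ⟨?_, ?_⟩
    · have : Continuous U := continuous_const.update a continuous_id
      exact this.tendsto t0
    · filter_upwards [Icc_mem_nhds ht0.1 ht0.2] with t ht
      exact hUm t ht
  have hDuc : ∀ ε : ℝ, 0 < ε → ∀ᶠ t in 𝓝 t0, ∀ z ∈ PU m (St r), ‖D t z - D t0 z‖ ≤ ε := by
    intro ε hε
    have h1 : ∀ᶠ u' in 𝓝[Set.Icc (0 : Fin q → ℝ) 1] (U t0), ∀ c, ∀ z ∈ PU m (St r),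
        ‖WW (fun c' => F c c' u') z - WW (fun c' => F c c' (U t0)) z‖ ≤ ε / (m + 1) :=
      eventually_all.2 fun c => d18_WW_uc (hFf c) (hUm t0 ht0') (ε / (m + 1)) (by positivity)
    filter_upwards [hUt.eventually h1] with t ht z hz
    simp only [hD]
    rw [← Finset.sum_sub_distrib]
    calc ‖∑ c, (WW (fun c' => F c c' (U t)) z - WW (fun c' => F c c' (U t0)) z)‖
        ≤ ∑ c : Fin m, ‖WW (fun c' => F c c' (U t)) z - WW (fun c' => F c c' (U t0)) z‖ := norm_sum_le _ _
      _ ≤ ∑ _c : Fin m, ε / (m + 1) := Finset.sum_le_sum fun c _ => ht c z hz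
      _ = m * (ε / (m + 1)) := by
          rw [Finset.sum_const, Finset.card_univ, Fintype.card_fin, nsmul_eq_mul]
      _ ≤ ε := by
          have h4 : (m : ℝ) / (m + 1) ≤ 1 := by
            rw [div_le_one (by positivity)]
            linarith
          have : (m : ℝ) * (ε / (m + 1)) = ε * (m / (m + 1)) := by ring
          rw [this]
          nlinarith
  obtain ⟨C, hC, H⟩ := hl.bdd
  have hlD : l (D t0) = ∑ c, l (WW (Function.update (fun c' => V c' (U t0)) c (V' c (U t0)))) := by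
    simp only [hD]
    rw [hl.sum' Finset.univ (fun c => WW fun c' => F c c' (U t0)) fun c _ => d18_WW_BO (hFf c) (hUm t0 ht0')]
    exact Finset.sum_congr rfl fun c _ => by rw [hFe]
  rw [← hlD, hasDerivAt_iff_isLittleO, Asymptotics.isLittleO_iff]
  intro ε hε
  obtain ⟨δ, hδ, hball⟩ := Metric.eventually_nhds_iff_ball.1 ((hDuc (ε / (C + 1)) (by positivity)).and
    (Ioo_mem_nhds ht0.1 ht0.2))
  filter_upwards [Metric.ball_mem_nhds t0 hδ] with t ht
  have htm : t ∈ Set.Ioo (0 : ℝ) 1 := (hball t ht).2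
  have htm' : t ∈ Set.Icc (0 : ℝ) 1 := ⟨htm.1.le, htm.2.le⟩
  have hmv : ∀ z ∈ PU m (St r), ‖W t z - W t0 z - (t - t0 : ℝ) * D t0 z‖ ≤ ε / (C + 1) * |t - t0| := by
    intro z hz
    have hc : Convex ℝ (Metric.ball t0 δ) := convex_ball t0 δ
    have := hc.norm_image_sub_le_of_norm_hasDerivWithin_le (f := fun t => W t z - (t : ℂ) * D t0 z)
      (f' := fun t => D t z - D t0 z) (C := ε / (C + 1)) (fun x hx => ?_) (fun x hx => (hball x hx).1 z hz)
      (Metric.mem_ball_self hδ) ht
    · rw [Real.norm_eq_abs] at this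
      refine le_trans (le_of_eq ?_) this
      congr 1
      push_cast
      ring
    · have h1 := hWd x (hball x hx).2 z hz
      have hof : HasDerivAt (fun t : ℝ => (t : ℂ)) 1 x := by
        simpa using (hasDerivAt_id x).ofReal_comp
      have h2 := h1.sub (hof.mul_const (D t0 z))
      rw [one_mul] at h2
      exact h2.hasDerivWithinAt
  have hBf : BO m (St r) (fun z => W t z - W t0 z) := (hWB t htm').sub (hWB t0 ht0')
  have e1 : l (W t) - l (W t0) - (t - t0) • l (D t0) = l (fun z => (W t z - W t0 z) - ((t - t0 : ℝ) : ℂ) * D t0 z) := by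
    rw [hl.sub' hBf ((hDB t0 ht0').smul _), hl.sub' (hWB t htm') (hWB t0 ht0'), hl.smul _ _ (hDB t0 ht0'),
      Complex.real_smul]
  have h6 := H _ (hBf.sub ((hDB t0 ht0').smul ((t - t0 : ℝ) : ℂ))) (ε / (C + 1) * |t - t0|) hmv (by positivity)
  have e2 : l (WW fun c => V c (U t)) - l (WW fun c => V c (U t0)) - (t - t0) • l (D t0)
      = l (fun z => (W t z - W t0 z) - ((t - t0 : ℝ) : ℂ) * D t0 z) := e1
  rw [e2, Real.norm_eq_abs]
  refine h6.trans ?_
  have : C * (ε / (C + 1) * |t - t0|) = (ε * |t - t0|) * (C / (C + 1)) := by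
    field_simp
  rw [this]
  have h4 : C / (C + 1) ≤ 1 := by
    rw [div_le_one (by positivity)]
    linarith
  have h5 : 0 ≤ ε * |t - t0| := by positivity
  nlinarith

/-! ### Stokes in one direction -/

theorem d18_insert_mem {m : ℕ} (a : Fin (m + 1)) {t : ℝ} (ht : t ∈ Set.Icc (0 : ℝ) 1) {u : Fin m → ℝ}
    (hu : u ∈ Set.Icc (0 : Fin m → ℝ) 1) : (a.insertNth t u : Fin (m + 1) → ℝ) ∈ Set.Icc (0 : Fin (m + 1) → ℝ) 1 := by
  constructor
  · intro i
    rcases Fin.eq_self_or_eq_succAbove a i with h | ⟨j, h⟩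
    · subst h
      simpa using ht.1
    · subst h
      simpa using hu.1 j
  · intro i
    rcases Fin.eq_self_or_eq_succAbove a i with h | ⟨j, h⟩
    · subst h
      simpa using ht.2
    · subst h
      simpa using hu.2 j

theorem d18_insert_cont {m : ℕ} (a : Fin (m + 1)) (t : ℝ) :
    Continuous fun u : Fin m → ℝ => (a.insertNth t u : Fin (m + 1) → ℝ) := by
  refine continuous_pi fun i => ?_
  rcases Fin.eq_self_or_eq_succAbove a i with h | ⟨j, h⟩
  · subst h
    simpa using continuous_const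
  · subst h
    simpa using continuous_apply j

theorem d18_stokes {m : ℕ} {g g' : (Fin (m + 1) → ℝ) → ℂ} (a : Fin (m + 1))
    (hg : ContinuousOn g (Set.Icc (0 : Fin (m + 1) → ℝ) 1)) (hg' : ContinuousOn g' (Set.Icc (0 : Fin (m + 1) → ℝ) 1))
    (hd : ∀ u ∈ Set.Icc (0 : Fin (m + 1) → ℝ) 1, ∀ t ∈ Set.Ioo (0 : ℝ) 1,
      HasDerivAt (fun t => g (Function.update u a t)) (g' (Function.update u a t)) t) :
    cub (m + 1) g' = cub m (fun u' => g (a.insertNth 1 u')) - cub m (fun u' => g (a.insertNth 0 u')) := by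
  have hmp := (volume_preserving_piFinSuccAbove (fun _ : Fin (m + 1) => ℝ) a).symm
  set e := MeasurableEquiv.piFinSuccAbove (fun _ : Fin (m + 1) => ℝ) a with he
  have hes : ∀ p : ℝ × (Fin m → ℝ), e.symm p = (a.insertNth p.1 p.2 : Fin (m + 1) → ℝ) := fun p => rfl
  have hpre : e.symm ⁻¹' (Set.Icc (0 : Fin (m + 1) → ℝ) 1) = Set.Icc (0 : ℝ) 1 ×ˢ Set.Icc (0 : Fin m → ℝ) 1 := by
    ext p
    rw [Set.mem_preimage, hes]
    constructor
    · intro h
      refine ⟨⟨?_, ?_⟩, ⟨fun j => ?_, fun j => ?_⟩⟩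
      · simpa using h.1 a
      · simpa using h.2 a
      · simpa using h.1 (a.succAbove j)
      · simpa using h.2 (a.succAbove j)
    · intro h
      exact d18_insert_mem a h.1 h.2
  have h1 := hmp.setIntegral_preimage_emb e.symm.measurableEmbedding g' (Set.Icc (0 : Fin (m + 1) → ℝ) 1)
  rw [hpre] at h1
  have hint : IntegrableOn g' (Set.Icc (0 : Fin (m + 1) → ℝ) 1) volume := hg'.integrableOn_compact isCompact_Icc
  have hint2 : IntegrableOn (fun p => g' (e.symm p)) (Set.Icc (0 : ℝ) 1 ×ˢ Set.Icc (0 : Fin m → ℝ) 1)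
      (volume.prod volume) := by
    rw [← hpre]
    exact (hmp.integrableOn_comp_preimage e.symm.measurableEmbedding).2 hint
  unfold cub
  rw [← h1]
  have h2 : ∫ p in Set.Icc (0 : ℝ) 1 ×ˢ Set.Icc (0 : Fin m → ℝ) 1, g' (e.symm p) =
      ∫ u in Set.Icc (0 : Fin m → ℝ) 1, ∫ t in Set.Icc (0 : ℝ) 1, g' (a.insertNth t u) := by
    have h3 : (volume : Measure (ℝ × (Fin m → ℝ))).restrict (Set.Icc (0 : ℝ) 1 ×ˢ Set.Icc (0 : Fin m → ℝ) 1) =
        (volume.restrict (Set.Icc (0 : ℝ) 1)).prod (volume.restrict (Set.Icc (0 : Fin m → ℝ) 1)) :=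
      (Measure.prod_restrict _ _).symm
    have hint3 : Integrable (fun p => g' (e.symm p))
        ((volume.restrict (Set.Icc (0 : ℝ) 1)).prod (volume.restrict (Set.Icc (0 : Fin m → ℝ) 1))) := by
      rw [← h3]
      exact hint2
    rw [h3, integral_prod_symm _ hint3]
    rfl
  rw [h2]
  have m0 : (0 : ℝ) ∈ Set.Icc (0 : ℝ) 1 := ⟨le_rfl, zero_le_one⟩
  have m1 : (1 : ℝ) ∈ Set.Icc (0 : ℝ) 1 := ⟨zero_le_one, le_rfl⟩
  have hI : ∀ t ∈ Set.Icc (0 : ℝ) 1, IntegrableOn (fun u' : Fin m → ℝ => g (a.insertNth t u'))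
      (Set.Icc (0 : Fin m → ℝ) 1) volume := by
    intro t ht
    have hc : ContinuousOn (fun u' : Fin m → ℝ => g (a.insertNth t u')) (Set.Icc (0 : Fin m → ℝ) 1) :=
      hg.comp (d18_insert_cont a t).continuousOn fun u hu => d18_insert_mem a ht hu
    exact hc.integrableOn_compact isCompact_Icc
  rw [← integral_sub (hI 1 m1) (hI 0 m0)]
  refine setIntegral_congr_fun measurableSet_Icc fun u hu => ?_
  have hupd : ∀ t, Function.update (a.insertNth 0 u : Fin (m + 1) → ℝ) a t = (a.insertNth t u : Fin (m + 1) → ℝ) :=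
    fun t => Fin.update_insertNth (α := fun _ => ℝ) a 0 t u
  have hline : ContinuousOn (fun t : ℝ => (a.insertNth t u : Fin (m + 1) → ℝ)) (Set.Icc 0 1) := by
    have : (fun t : ℝ => (a.insertNth t u : Fin (m + 1) → ℝ)) =
        fun t => Function.update (a.insertNth 0 u : Fin (m + 1) → ℝ) a t := by
      funext t
      rw [hupd]
    rw [this]
    have hc : Continuous fun t : ℝ => Function.update (a.insertNth 0 u : Fin (m + 1) → ℝ) a t :=
      Continuous.update (A := fun _ : Fin (m + 1) => ℝ) continuous_const a continuous_id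
    exact hc.continuousOn
  have hmaps : Set.MapsTo (fun t : ℝ => (a.insertNth t u : Fin (m + 1) → ℝ)) (Set.Icc 0 1)
      (Set.Icc (0 : Fin (m + 1) → ℝ) 1) := fun t ht => d18_insert_mem a ht hu
  have hftc := intervalIntegral.integral_eq_sub_of_hasDerivAt_of_le (a := (0 : ℝ)) (b := 1) zero_le_one
    (f := fun t => g (a.insertNth t u)) (f' := fun t => g' (a.insertNth t u)) (hg.comp hline hmaps)
    (fun t ht => by
      have := hd _ (d18_insert_mem a m0 hu) t ht
      rw [hupd t] at this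
      refine this.congr_of_eventuallyEq (Eventually.of_forall fun t' => ?_)
      show g (a.insertNth t' u) = g (Function.update (a.insertNth 0 u) a t')
      rw [hupd t'])
    ((hg'.comp hline hmaps).intervalIntegrable_of_Icc zero_le_one)
  rw [intervalIntegral.integral_of_le zero_le_one, ← integral_Icc_eq_integral_Ioc] at hftc
  exact hftc

/-! ### sign bookkeeping -/

theorem d18_sum_split {m : ℕ} (g : Fin m → Fin m → ℂ) (h : ∀ a, g a a = 0) :
    ∑ a, ∑ b, g a b = ∑ a, ∑ b, if a < b then g a b + g b a else 0 := by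
  have e1 : ∀ a b, g a b = (if a < b then g a b else 0) + (if b < a then g a b else 0) := by
    intro a b
    rcases lt_trichotomy a b with hab | hab | hab
    · simp [hab, hab.not_gt]
    · subst hab
      simp [h]
    · simp [hab, hab.not_gt]
  calc ∑ a, ∑ b, g a b = ∑ a, ∑ b, ((if a < b then g a b else 0) + (if b < a then g a b else 0)) :=
        Finset.sum_congr rfl fun a _ => Finset.sum_congr rfl fun b _ => e1 a b
    _ = (∑ a, ∑ b, if a < b then g a b else 0) + ∑ a, ∑ b, if b < a then g a b else 0 := by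
        simp only [Finset.sum_add_distrib]
    _ = (∑ a, ∑ b, if a < b then g a b else 0) + ∑ b, ∑ a, if b < a then g a b else 0 := by
        rw [Finset.sum_comm (f := fun a b => if b < a then g a b else 0)]
    _ = ∑ a, ∑ b, ((if a < b then g a b else 0) + (if a < b then g b a else 0)) := by
        simp only [Finset.sum_add_distrib]
    _ = _ := by
        refine Finset.sum_congr rfl fun a _ => Finset.sum_congr rfl fun b _ => ?_
        split_ifs <;> simp

theorem d18_removeNth_update {m : ℕ} (V : Fin (m + 1) → ℂ → ℂ) (b : Fin (m + 1)) (k : Fin m) (Y : ℂ → ℂ) :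
    b.removeNth (Function.update V (b.succAbove k) Y) = Function.update (b.removeNth V) k Y := by
  funext i
  by_cases hi : i = k
  · subst hi
    simp [Fin.removeNth]
  · rw [Function.update_of_ne hi]
    have : b.succAbove i ≠ b.succAbove k := fun h => hi (Fin.succAbove_right_injective h)
    simp [Fin.removeNth, Function.update_of_ne this]

theorem d18_removeNth_update_self {m : ℕ} (V : Fin (m + 1) → ℂ → ℂ) (b : Fin (m + 1)) (Y : ℂ → ℂ) :
    b.removeNth (Function.update V b Y) = b.removeNth V := by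
  funext i
  simp [Fin.removeNth]

/-- moving a row -/
theorem d18_move {m : ℕ} (X : Fin (m + 1) → ℂ → ℂ) {a b : Fin (m + 1)} (hab : a ≠ b) (Y : ℂ → ℂ) (z : Fin m → ℂ) :
    (-1 : ℂ) ^ (a : ℕ) * WW (a.removeNth (Function.update X b Y)) z
      = -((-1 : ℂ) ^ (b : ℕ) * WW (b.removeNth (Function.update X a Y)) z) := by
  set V := Function.update (Function.update X b Y) a Y with hV
  have hV' : V = Function.update (Function.update X a Y) b Y := by
    rw [hV, Function.update_comm hab]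
  have e1 : a.removeNth V = a.removeNth (Function.update X b Y) := d18_removeNth_update_self _ a Y
  have e2 : b.removeNth V = b.removeNth (Function.update X a Y) := by
    rw [hV']
    exact d18_removeNth_update_self _ b Y
  have hva : V a = Y := by
    rw [hV, Function.update_self]
  have hvb : V b = Y := by
    rw [hV', Function.update_self]
  have key := AlternatingMap.neg_one_pow_smul_map_removeNth_add_eq_zero_of_eq
    (Matrix.detRowAlternating : (Fin m → ℂ) [⋀^Fin m]→ₗ[ℂ] ℂ) (v := fun i j => V i (z j)) (i := a) (j := b)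
    (by simp only [hva, hvb]) hab
  have f1 : (Matrix.detRowAlternating : (Fin m → ℂ) [⋀^Fin m]→ₗ[ℂ] ℂ) (a.removeNth fun i j => V i (z j))
      = WW (a.removeNth V) z := rfl
  have f2 : (Matrix.detRowAlternating : (Fin m → ℂ) [⋀^Fin m]→ₗ[ℂ] ℂ) (b.removeNth fun i j => V i (z j))
      = WW (b.removeNth V) z := rfl
  rw [f1, f2, e1, e2] at key
  have g1 : ∀ (k : ℕ) (x : ℂ), ((-1 : ℤ) ^ k) • x = (-1 : ℂ) ^ k * x := by
    intro k x
    rw [zsmul_eq_mul]
    push_cast
    ring
  rw [g1, g1] at key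
  linear_combination key

theorem d18_alg {q : ℕ} (X : Fin (q + 2) → ℂ → ℂ) (Z : Fin (q + 2) → Fin (q + 2) → ℂ → ℂ) (hZ : ∀ a b, Z a b = Z b a)
    (z : Fin (q + 1) → ℂ) :
    ∑ a : Fin (q + 2), (-1 : ℂ) ^ (a : ℕ) * ∑ c : Fin (q + 1), WW (Function.update (fun c' => X (a.succAbove c')) c
        (fun w => Z a (a.succAbove c) w - X a w * deriv (X (a.succAbove c)) w)) z
      = -∑ a : Fin (q + 2), ∑ b : Fin (q + 2), if a < b then
        (-1 : ℂ) ^ ((b : ℕ) + 1) * WW (b.removeNth (Function.update X a (brk (X a) (X b)))) z else 0 := by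
  set Y : Fin (q + 2) → Fin (q + 2) → ℂ → ℂ := fun a b w => Z a b w - X a w * deriv (X b) w with hY
  set G : Fin (q + 2) → Fin (q + 2) → ℂ := fun a b => if b = a then 0 else
    (-1 : ℂ) ^ (a : ℕ) * WW (a.removeNth (Function.update X b (Y a b))) z with hG
  have e1 : ∀ a : Fin (q + 2), (-1 : ℂ) ^ (a : ℕ) * ∑ c : Fin (q + 1), WW (Function.update (fun c' => X (a.succAbove c')) c
        (fun w => Z a (a.succAbove c) w - X a w * deriv (X (a.succAbove c)) w)) z = ∑ b, G a b := by
    intro a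
    rw [Fin.sum_univ_succAbove _ a, Finset.mul_sum]
    have : G a a = 0 := by simp [hG]
    rw [this, zero_add]
    refine Finset.sum_congr rfl fun c _ => ?_
    simp only [hG, Fin.succAbove_ne, if_false]
    rw [d18_removeNth_update]
    rfl
  rw [Finset.sum_congr rfl fun a _ => e1 a, d18_sum_split G (fun a => by simp [hG]), ← Finset.sum_neg_distrib]
  refine Finset.sum_congr rfl fun a _ => ?_
  rw [← Finset.sum_neg_distrib]
  refine Finset.sum_congr rfl fun b _ => ?_
  split_ifs with hab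
  · have hne : b ≠ a := hab.ne'
    simp only [hG, hne, hne.symm, if_false]
    rw [d18_move X hab.ne (Y a b) z]
    obtain ⟨k, hk⟩ := Fin.exists_succAbove_eq hne.symm
    rw [← hk, d18_removeNth_update, d18_removeNth_update, d18_removeNth_update, hk]
    have e3 : brk (X a) (X b) = fun w => Y b a w - Y a b w := by
      funext w
      simp only [hY, brk, hZ b a]
      ring
    have e4 := d18_WW_update_sub (b.removeNth X) k (Y b a) (Y a b) z
    rw [e3, e4]
    ring
  · simp

end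

end Pool.Agent.Helper67.DO
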